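import Pool.Agent.H57.SO.Targets
import Pool.Agent.H44.EQD.Targets

/-!
# Several orbits of vertices: behaviours, targets
-/

set_option autoImplicit false
set_option linter.unusedVariables false

namespace Pool.Agent.H44.SO

open Pool.Agent.H68.BP Pool.Agent.H58.SF Pool.Agent.H53.GC Pool.Agent.H53.NR
open Pool.Agent.H57.EQ (Cx Tour)
open Pool.Agent.H57.SO
open Pool.Agent.H44.EQ (PolMap TInv BinPol ZA JSet sel kap)
open Pool.Agent.H44.EQD (SetD)
open Function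

section defs

variable {V S X : Type} {σ : Sig}

/-! ### Generic blocks -/

/-- For `rk i < rk j` the pair `(z i, z' j)` is ascending and free. -/
def Zon [LinearOrder V] (P : Pal S X) (c : V → V → S ⊕ X) {I : Type} (rk : I → ℕ)
    (z z' : I → V) : Prop :=
  ∀ i j, rk i < rk j → z i < z' j ∧ c (z i) (z' j) = Sum.inr (P.fr (vt P c (z i)) (vt P c (z' j)))

/-- generic pairs of blocks -/
def Gen [LinearOrder V] (P : Pal S X) (c : V → V → S ⊕ X) {I : Type} (rk : I → ℕ)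
    (z z' : I → V) : Prop :=
  Zon P c rk z z ∧ Zon P c rk z z' ∧ Zon P c rk z' z ∧ Zon P c rk z' z'

/-! ### Blocks of elements of the type `s` -/

/-- The blocks `z` and `z'` of elements of type `s` have the shape `κ` and lie in common zones:
entries in the positions `l, l'` with `κ l < κ l'` are in this order, and free from each other. -/
structure ZS [LinearOrder V] (P : Pal S X) (c : V → V → S ⊕ X) (s : S) (κ : Fin 6 → ℕ)
    (z z' : Fin 6 → V) : Prop where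
  typ : ∀ l, c (z l) (z l) = Sum.inl s ∧ c (z' l) (z' l) = Sum.inl s
  eq : ∀ l l', κ l = κ l' → z l = z l' ∧ z' l = z' l'
  lt : ∀ l l', κ l < κ l' → z l < z l' ∧ z l < z' l' ∧ z' l < z l' ∧ z' l < z' l'
  free : ∀ l l', κ l < κ l' → c (z l) (z l') = Sum.inr (P.fr s s) ∧
    c (z l) (z' l') = Sum.inr (P.fr s s) ∧ c (z' l) (z l') = Sum.inr (P.fr s s) ∧
    c (z' l) (z' l') = Sum.inr (P.fr s s)

/-- The positions in `J` determine the values of `h` on blocks of the shape `κ` of elements of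
type `s`. -/
def JS [LinearOrder V] (P : Pal S X) (c : V → V → S ⊕ X) (s : S)
    (h : (Fin 6 → V) → (Fin 6 → V) → S ⊕ X) (κ : Fin 6 → ℕ) (J : Set (Fin 6)) : Prop :=
  ∀ z z', ZS P c s κ z z' → ((∃ s', h z z' = Sum.inl s') ↔ ∀ l ∈ J, z l = z' l)

/-! ### Local binary maps -/

/-- `γ` is a binary polymorphism of `𝔸` on the elements `q a`, the value at two elements of the same
type has this type, and pairs of elements of the same type without common coordinates have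
different values. -/
structure Loc (P : Pal S X) (𝔸 : Str σ V) (c : V → V → S ⊕ X) {n : ℕ} (q : Fin n → V)
    (γ : Fin n × Fin n → V) : Prop where
  pol : BinPol 𝔸 q γ
  typ : ∀ a b, vt P c (q a) = vt P c (q b) → vt P c (γ (a, b)) = vt P c (q a)
  sep : ∀ a b a' b', vt P c (q b) = vt P c (q a) → vt P c (q a') = vt P c (q a) →
    vt P c (q b') = vt P c (q a) → a ≠ a' → b ≠ b' → γ (a, b) ≠ γ (a', b')

/-- `p` is a pair of elements of type `s`. -/
def OfT (P : Pal S X) (c : V → V → S ⊕ X) {n : ℕ} (q : Fin n → V) (s : S) (p : Fin n × Fin n) :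
    Prop :=
  vt P c (q p.1) = s ∧ vt P c (q p.2) = s

/-- On each finite set there is a local map which is injective on the pairs of elements of type
`s`. -/
def LInj (P : Pal S X) (𝔸 : Str σ V) (c : V → V → S ⊕ X) (s : S) : Prop :=
  ∀ (n : ℕ) (q : Fin n → V), Injective q → ∃ γ : Fin n × Fin n → V, Loc P 𝔸 c q γ ∧
    ∀ p p', OfT P c q s p → OfT P c q s p' → γ p = γ p' → p = p'

/-! ### The view: the elements of type `s` -/

/-- the elements of type `s` -/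
abbrev Vs (c : V → V → S ⊕ X) (s : S) : Type := {x : V // c x x = Sum.inl s}

/-- the colours of the pairs of elements of type `s` -/
def cs (P : Pal S X) (c : V → V → S ⊕ X) (s : S) (x y : Vs c s) : X := cD P c x.1 y.1

open Classical in
/-- equality of the values of `h` on blocks of elements of type `s` -/
noncomputable def hsv (P : Pal S X) (c : V → V → S ⊕ X) (s : S)
    (h : (Fin 6 → V) → (Fin 6 → V) → S ⊕ X) (v w : Fin 6 → Vs c s) : Option X :=
  if ∃ s', h (fun l => (v l).1) (fun l => (w l).1) = Sum.inl s' then none else some (P.fr s s)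

/-- the empty signature -/
def sig0 : Sig := ⟨0, fun _ => 0⟩

/-- the trivial structure -/
def str0 (Y : Type) : Str sig0 Y := fun _ _ => True

end defs

/-! ### Configurations -/

/-- Finite ordered configurations, the order is given by `rk`. -/
def T_CFG : Prop :=
  ∀ (σ : Sig) (V S X : Type) [LinearOrder V] (P : Pal S X) (𝔸 : Str σ V) (M : ℕ)
    (c : V → V → S ⊕ X), Stp P 𝔸 M c → ∀ (W R : Type) [Finite W] [LinearOrder R] (rk : W → R)
      (t : W → S) (d : W → W → X), Injective rk → (∀ x y, x ≠ y → d y x = P.rv (d x y)) →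
      (∀ K : Set W, (∀ x ∈ K, ∀ y ∈ K, x ≠ y → d x y ≠ P.fr (t x) (t y)) →
        ∃ u : W → V, (∀ x ∈ K, c (u x) (u x) = Sum.inl (t x)) ∧
          ∀ x ∈ K, ∀ y ∈ K, x ≠ y → c (u x) (u y) = Sum.inr (d x y)) →
      ∃ f : W → V, (∀ x y, f x < f y ↔ rk x < rk y) ∧ (∀ x, c (f x) (f x) = Sum.inl (t x)) ∧
        ∀ x y, x ≠ y → c (f x) (f y) = Sum.inr (d x y)

/-- Systems of copies: the name `n` stands for the element `u n`; the pairs of names related by `r`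
have the colours of the elements, the other pairs are free. -/
def T_SYN : Prop :=
  ∀ (σ : Sig) (V S X : Type) [LinearOrder V] (P : Pal S X) (𝔸 : Str σ V) (M : ℕ)
    (c : V → V → S ⊕ X), Stp P 𝔸 M c → ∀ (W R : Type) [Finite W] [LinearOrder R] (rk : W → R)
      (u : W → V) (r : W → W → Prop), Injective rk → (∀ x y, r x y → r y x) →
      ∃ f : W → V, (∀ x y, f x < f y ↔ rk x < rk y) ∧ (∀ x, c (f x) (f x) = c (u x) (u x)) ∧
        ∀ x y, x ≠ y → (r x y → u x ≠ u y → c (f x) (f y) = c (u x) (u y)) ∧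
          (¬ (r x y ∧ u x ≠ u y) →
            c (f x) (f y) = Sum.inr (P.fr (vt P c (u x)) (vt P c (u y))))

/-- Generic placement: copies of the maps `G i` in zones. -/
def T_GEN : Prop :=
  ∀ (σ : Sig) (V S X : Type) [LinearOrder V] (P : Pal S X) (𝔸 : Str σ V) (M : ℕ)
    (c : V → V → S ⊕ X), Stp P 𝔸 M c → ∀ (I W : Type) [Finite I] [Finite W] (rk : I → ℕ),
      Injective rk → ∀ G : I → W → V, ∃ G' : I → W → V,
        (∀ i u w, c (G' i u) (G' i w) = c (G i u) (G i w) ∧ (G' i u < G' i w ↔ G i u < G i w)) ∧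
        ∀ u w, Zon P c rk (fun i => G' i u) (fun i => G' i w)

/-- Tuples in arbitrary orders. -/
def T_ORD : Prop :=
  ∀ (σ : Sig) (V S X : Type) [LinearOrder V] (P : Pal S X) (𝔸 : Str σ V) (M : ℕ)
    (c : V → V → S ⊕ X), Stp P 𝔸 M c → ∀ (W : Type) [Finite W] (x : W → V) (rk : W → ℕ),
      (∀ a b, rk a = rk b ↔ x a = x b) → ∃ x' : W → V,
        (∀ a b, c (x' a) (x' b) = c (x a) (x b)) ∧ ∀ a b, x' a < x' b ↔ rk a < rk b

/-! ### Canonization -/

/-- Limits of local maps and canonization, keeping an invariant property `R` of the pairs. -/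
def T_CAN : Prop :=
  ∀ (σ : Sig) (V S X : Type) [LinearOrder V] (P : Pal S X) (𝔸 : Str σ V) (M : ℕ)
    (c : V → V → S ⊕ X), Stp P 𝔸 M c → ∀ (I : Type) [Finite I]
      (R : (I → V) → (I → V) → S ⊕ X → Prop),
      (∀ v w v' w' y, Same c (Sum.elim v w) (Sum.elim v' w') → R v w y → R v' w' y) →
      (∀ (W : Type) [Finite W] (G : I → W → V), (∀ u w, (∀ i, G i u = G i w) → u = w) →
        ∃ ψ : W → V, Cx 𝔸 G ψ ∧
          ∀ u w, R (fun i => G i u) (fun i => G i w) (c (ψ u) (ψ w))) →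
      ∃ H : (I → V) → (I → V) → (S ⊕ X) × Prop,
        (∀ v w v' w', Same c (Sum.elim v w) (Sum.elim v' w') → H v w = H v' w') ∧
        (∀ v w, R v w (H v w).1) ∧
        ∀ (W : Type) [Finite W] (G : I → W → V), ∃ ψ : W → V, Cx 𝔸 G ψ ∧
          ∀ u w, H (fun i => G i u) (fun i => G i w) = (c (ψ u) (ψ w), ψ u < ψ w)

/-- Tameness: on generic pairs of blocks the equality of the values depends only on the types and
on the set of the coordinates where the blocks agree. -/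
def T_TAM : Prop :=
  ∀ (σ : Sig) (V S X : Type) [LinearOrder V] (P : Pal S X) (𝔸 : Str σ V) (M : ℕ)
    (c : V → V → S ⊕ X), Stp P 𝔸 M c → ∀ (I : Type) [Finite I] (rk : I → ℕ), Injective rk →
      ∀ H, Can 𝔸 c I H → ∀ z z' w w' : I → V, Gen P c rk z z' → Gen P c rk w w' →
        (∀ i, vt P c (w i) = vt P c (z i)) → (∀ i, vt P c (w' i) = vt P c (z' i)) →
        (∀ i, w i = w' i ↔ z i = z' i) → (∃ s, H z z' = Sum.inl s) → ∃ s, H w w' = Sum.inl s

/-- Canonical maps give behaviours. -/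
def T_BHH : Prop :=
  ∀ (σ : Sig) (V S X : Type) [LinearOrder V] (P : Pal S X) (𝔸 : Str σ V) (M : ℕ)
    (c : V → V → S ⊕ X), Stp P 𝔸 M c → ∀ (I : Type) [Finite I] (rk : I → ℕ), Injective rk →
      ∀ H, Can 𝔸 c I H → ∃ (τ : (I → S) → S) (κ : (I → S) → (I → S) → Set I → Prop),
        Bh P 𝔸 c τ κ ∧
        (∀ t, ∃ z : I → V, Gen P c rk z z ∧ (∀ i, vt P c (z i) = t i) ∧
          H z z = Sum.inl (τ t)) ∧
        ∀ t t' A, κ t t' A → ∃ z z' : I → V, Gen P c rk z z' ∧ (∀ i, vt P c (z i) = t i) ∧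
          (∀ i, vt P c (z' i) = t' i) ∧ (∀ i, z i = z' i ↔ i ∈ A) ∧ ∃ s, H z z' = Sum.inl s

/-! ### The determining positions -/

/-- The view on the elements of type `s`. -/
def T_VIE : Prop :=
  ∀ (σ : Sig) (V S X : Type) [LinearOrder V] (P : Pal S X) (𝔸 : Str σ V) (M : ℕ)
    (c : V → V → S ⊕ X), Stp P 𝔸 M c → ∀ h, Can 𝔸 c (Fin 6) h → ∀ s : S,
      SetD (str0 (Vs c s)) M (cs P c s) (P.fr s s) P.rv ∧
      PolMap (str0 (Vs c s)) M (cs P c s) (Fin 6) (hsv P c s h) ∧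
      TInv (cs P c s) (hsv P c s h)

/-- Existence of the set of the determining positions. -/
def T_JEX : Prop :=
  ∀ (σ : Sig) (V S X : Type) [LinearOrder V] (P : Pal S X) (𝔸 : Str σ V) (M : ℕ)
    (c : V → V → S ⊕ X), Stp P 𝔸 M c → ∀ h, Can 𝔸 c (Fin 6) h → ∀ (s : S) (κ : Fin 6 → ℕ),
      ∃ J : Set (Fin 6), (∀ l l', κ l = κ l' → (l ∈ J ↔ l' ∈ J)) ∧ JS P c s h κ J

/-- There are determining positions. -/
def T_JNE : Prop :=
  ∀ (σ : Sig) (V S X : Type) [LinearOrder V] (P : Pal S X) (𝔸 : Str σ V) (M : ℕ)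
    (c : V → V → S ⊕ X), Stp P 𝔸 M c → ∀ h, Core P 𝔸 c h → ∀ (s : S) (κ : Fin 6 → ℕ)
      (J : Set (Fin 6)), JS P c s h κ J → J.Nonempty

/-- Blocks with different determining entries have different values. -/
def T_SEP : Prop :=
  ∀ (σ : Sig) (V S X : Type) [LinearOrder V] (P : Pal S X) (𝔸 : Str σ V) (M : ℕ)
    (c : V → V → S ⊕ X), Stp P 𝔸 M c → ∀ h, Core P 𝔸 c h → ∀ (s : S) (κ κ' : Fin 6 → ℕ)
      (J J' : Set (Fin 6)), JS P c s h κ J → JS P c s h κ' J' →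
      (∀ l l', κ l = κ l' → (l ∈ J ↔ l' ∈ J)) → (∀ l l', κ' l = κ' l' → (l ∈ J' ↔ l' ∈ J')) →
      ∀ v v', ZS P c s κ v v → ZS P c s κ' v' v' → (∀ l ∈ J, ∀ l' ∈ J', v l ≠ v' l') →
      ∀ s', h v v' ≠ Sum.inl s'

/-- The special blocks: their determining letter does not depend on the pattern `r`. -/
def T_LTR : Prop :=
  ∀ (σ : Sig) (V S X : Type) [LinearOrder V] (P : Pal S X) (𝔸 : Str σ V) (M : ℕ)
    (c : V → V → S ⊕ X), Stp P 𝔸 M c → ∀ h, Core P 𝔸 c h → ∀ (s : S)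
      (J : Fin 3 → Set (Fin 6)), (∀ r, JS P c s h (pat r 0 7) (J r)) →
      (∀ r l l', pat r (0 : ℕ) 7 l = pat r (0 : ℕ) 7 l' → (l ∈ J r ↔ l' ∈ J r)) →
      (∀ r, ∀ l ∈ J r, ∀ l' ∈ J r, pat r (0 : ℕ) 7 l = pat r (0 : ℕ) 7 l') →
      ∀ i₀ : Fin 6, ∃ r, i₀ ∉ J r ∧ ∀ l l', (l ∈ J r ↔ l' ∈ J r) ↔
        pat r (0 : ℕ) 7 l = pat r (0 : ℕ) 7 l'

/-! ### Local injections -/

/-- Two local maps with complementary equalities. -/
def T_MIN : Prop :=
  ∀ (σ : Sig) (V S X : Type) [LinearOrder V] (P : Pal S X) (𝔸 : Str σ V) (M : ℕ)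
    (c : V → V → S ⊕ X), Stp P 𝔸 M c → ∀ s : S, ¬ LInj P 𝔸 c s →
    ∃ (n : ℕ) (q : Fin n → V) (γ₀ γ₁ : Fin n × Fin n → V) (p₀ p₀' p₁ p₁' : Fin n × Fin n)
      (U : Set ((Fin n × Fin n) × (Fin n × Fin n))), Injective q ∧
      Loc P 𝔸 c q γ₀ ∧ Loc P 𝔸 c q γ₁ ∧ γ₀ p₀ = γ₀ p₀' ∧ γ₁ p₀ ≠ γ₁ p₀' ∧ γ₁ p₁ = γ₁ p₁' ∧
      γ₀ p₁ ≠ γ₀ p₁' ∧ (∀ γ, Loc P 𝔸 c q γ → ∃ u ∈ U, γ u.1 = γ u.2) ∧
      ∀ u ∈ U, OfT P c q s u.1 ∧ OfT P c q s u.2 ∧
        (u = (p₀, p₀') ∨ u = (p₁, p₁') ∨ (γ₀ u.1 ≠ γ₀ u.2 ∧ γ₁ u.1 ≠ γ₁ u.2))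

/-- Composition with copies of local maps. -/
def T_CMP : Prop :=
  ∀ (σ : Sig) (V S X : Type) [LinearOrder V] (P : Pal S X) (𝔸 : Str σ V) (M : ℕ)
    (c : V → V → S ⊕ X), Stp P 𝔸 M c → ∀ h, Core P 𝔸 c h → ∀ (n : ℕ) (q : Fin n → V)
      (γ : Fin 6 → Fin n × Fin n → V) (z : Fin n × Fin n → Fin 6 → V),
      (∀ l, Loc P 𝔸 c q (γ l)) →
      (∀ l p p', c (z p l) (z p' l) = c (γ l p) (γ l p')) →
      (∀ p l l', z p l ≠ z p l' →
        c (z p l) (z p l') = Sum.inr (P.fr (vt P c (z p l)) (vt P c (z p l')))) →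
      (∀ (s : S) (p p' : Fin n × Fin n), OfT P c q s p → OfT P c q s p' → p.1 ≠ p'.1 →
        p.2 ≠ p'.2 → ∀ l l', z p l ≠ z p' l') →
      ∃ δ : Fin n × Fin n → V, Loc P 𝔸 c q δ ∧
        ∀ p p', δ p = δ p' ↔ ∃ s', h (z p) (z p') = Sum.inl s'

/-- Blocks which consist of copies of `γ₀` (in the positions `l ∈ L`) and of `γ₁` (in the other
positions); different copies are free from each other, but they share the elements which belong to
`s₀` and `s₁`. -/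
def T_CON : Prop :=
  ∀ (σ : Sig) (V S X : Type) [LinearOrder V] (P : Pal S X) (𝔸 : Str σ V) (M : ℕ)
    (c : V → V → S ⊕ X), Stp P 𝔸 M c → ∀ (Q : Type) [Finite Q] (γ₀ γ₁ : Q → V) (e : Fin 6 → ℕ)
      (L : Set (Fin 6)) (s₀ s₁ : Set V), (∀ l, e l = 0 ∨ e l = 7) →
      (∀ l l', (l ∈ L ↔ l' ∈ L) ↔ e l = e l') →
      ∃ z : Q → Fin 6 → V,
        (∀ l p p', c (z p l) (z p' l) = c (sel L γ₀ γ₁ l p) (sel L γ₀ γ₁ l p')) ∧
        (∀ p l l', z p l ≠ z p l' →
          c (z p l) (z p l') = Sum.inr (P.fr (vt P c (z p l)) (vt P c (z p l')))) ∧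
        (∀ p (s : S), (∀ l, c (sel L γ₀ γ₁ l p) (sel L γ₀ γ₁ l p) = Sum.inl s) →
          ZS P c s (kap e {l | sel L γ₀ γ₁ l p ∈ sel L s₀ s₁ l}) (z p) (z p)) ∧
        ∀ p p' l l', z p l = z p' l' ↔ ((l ∈ L ↔ l' ∈ L) ∧
          sel L γ₀ γ₁ l p = sel L γ₀ γ₁ l' p' ∧ (l = l' ∨ sel L γ₀ γ₁ l p ∈ sel L s₀ s₁ l))

/-- Two determining positions give local injections. -/
def T_TWO : Prop :=
  ∀ (σ : Sig) (V S X : Type) [LinearOrder V] (P : Pal S X) (𝔸 : Str σ V) (M : ℕ)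
    (c : V → V → S ⊕ X), Stp P 𝔸 M c → ∀ h, Core P 𝔸 c h → ∀ (s : S) (κ : Fin 6 → ℕ)
      (J : Set (Fin 6)), JS P c s h κ J → ∀ l l', l ∈ J → l' ∈ J → κ l ≠ κ l' → LInj P 𝔸 c s

/-- Local injections. -/
def T_INL : Prop :=
  ∀ (σ : Sig) (V S X : Type) [LinearOrder V] (P : Pal S X) (𝔸 : Str σ V) (M : ℕ)
    (c : V → V → S ⊕ X), Stp P 𝔸 M c → ∀ h, Core P 𝔸 c h → ∀ s : S, LInj P 𝔸 c s

/-! ### Binary behaviours -/

/-- `τ` and `κ` are the types and the equalities of a binary map which separates pairs of elements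
of the same type without common coordinates. -/
structure B2 {σ : Sig} {V S X : Type} (P : Pal S X) (𝔸 : Str σ V) (c : V → V → S ⊕ X)
    (τ : (Fin 2 → S) → S) (κ : (Fin 2 → S) → (Fin 2 → S) → Set (Fin 2) → Prop) : Prop where
  bh : Bh P 𝔸 c τ κ
  idem : ∀ s, τ (fun _ => s) = s
  sep : ∀ s, ¬ κ (fun _ => s) (fun _ => s) ∅

/-- From local injections to behaviours. -/
def T_LCB : Prop :=
  ∀ (σ : Sig) (V S X : Type) [LinearOrder V] (P : Pal S X) (𝔸 : Str σ V) (M : ℕ)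
    (c : V → V → S ⊕ X), Stp P 𝔸 M c → ∀ s : S, LInj P 𝔸 c s →
      ∃ τ κ, B2 P 𝔸 c τ κ ∧ ∀ A, κ (fun _ => s) (fun _ => s) A → A = Set.univ

/-- All types together. -/
def T_CMB : Prop :=
  ∀ (σ : Sig) (V S X : Type) [LinearOrder V] (P : Pal S X) (𝔸 : Str σ V) (M : ℕ)
    (c : V → V → S ⊕ X), Stp P 𝔸 M c →
      (∀ s : S, ∃ τ κ, B2 P 𝔸 c τ κ ∧ ∀ A, κ (fun _ => s) (fun _ => s) A → A = Set.univ) →
      ∃ (τ : (Fin 2 → S) → S) (κ : (Fin 2 → S) → (Fin 2 → S) → Set (Fin 2) → Prop),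
        Bh P 𝔸 c τ κ ∧ (∀ s, τ (fun _ => s) = s) ∧
        ∀ s s' A, κ (fun _ => s) (fun _ => s') A → A = Set.univ

/-! ### Averages -/

/-- Iterated cyclic functions: an average over all functions from `I` to `ZMod p`, which is
invariant under shifts. -/
def T_AVG : Prop :=
  ∀ (σ : Sig) (V S X : Type) [LinearOrder V] (P : Pal S X) (𝔸 : Str σ V) (M : ℕ)
    (c : V → V → S ⊕ X), Stp P 𝔸 M c → ∀ (p : ℕ) (f : (ZMod p → X) → X), 0 < p →
      Dd 𝔸 c p f → ∀ (I : Type) [Finite I], ∃ N : ((I → ZMod p) → X) → X,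
        (∀ (e : I → ZMod p) (q : (I → ZMod p) → X), N (fun v => q (v + e)) = N q) ∧
        ∀ (W : Type) [Finite W] (rk : W → ℕ), Injective rk → ∀ (G : (I → ZMod p) → W → V),
          (∀ v, Injective (G v)) → (∀ v v' w, c (G v w) (G v w) = c (G v' w) (G v' w)) →
          ∃ ψ : W → V, Injective ψ ∧ Cx 𝔸 G ψ ∧ (∀ v w, c (ψ w) (ψ w) = c (G v w) (G v w)) ∧
            ∀ (u w : W) (q : (I → ZMod p) → X), rk u < rk w →
              (∀ v, c (G v u) (G v w) = Sum.inr (q v)) → c (ψ u) (ψ w) = Sum.inr (N q)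

end Pool.Agent.H44.SO
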