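import Pool.Agent.H18.SO.BHH

/-!
# Several orbits of vertices: canonization of behaviours
-/

set_option autoImplicit false
set_option linter.unusedVariables false

namespace Pool.Agent.H44.SO.CAB

open Pool.Agent.H68.BP Pool.Agent.H58.SF Pool.Agent.H53.GC Pool.Agent.H53.NR
open Pool.Agent.H57.EQ (Cx Tour)
open Pool.Agent.H57.SO Pool.Agent.H44.SO
open Pool.Agent.H18.SO.BHH (same_of)
open Function Classical

theorem pf_CAB (hG : T_GEN) (hK : Pool.Agent.H44.SO.T_CAN) : T_CAB := by
  intro σ V S X _ P 𝔸 M c hs I _ τ κ hκ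
  have hc := hs.col
  obtain ⟨x₀⟩ := hs.ne
  have hX : Nonempty X := ⟨P.fr (vt P c x₀) (vt P c x₀)⟩
  obtain ⟨H, hH1, hH2, hH3⟩ := hK σ V S X P 𝔸 M c hs I
    (fun v w y => ((∃ s, y = Sum.inl s) ↔ κ (fun i => vt P c (v i)) (fun i => vt P c (w i))
      {i | v i = w i}) ∧ (v = w → y = Sum.inl (τ (fun i => vt P c (v i))))) (by
      intro v w v' w' y hsame hR
      have he : ∀ i, v i = w i ↔ v' i = w' i := fun i =>
        Col.eq_iff' hc (hsame (Sum.inl i) (Sum.inr i)).2
      have hv : (fun i => vt P c (v i)) = fun i => vt P c (v' i) := by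
        funext i
        have h1 : c (v i) (v i) = c (v' i) (v' i) := (hsame (Sum.inl i) (Sum.inl i)).2
        rw [vt, vt, h1]
      have hw : (fun i => vt P c (w i)) = fun i => vt P c (w' i) := by
        funext i
        have h1 : c (w i) (w i) = c (w' i) (w' i) := (hsame (Sum.inr i) (Sum.inr i)).2
        rw [vt, vt, h1]
      have hA : {i | v i = w i} = {i | v' i = w' i} := Set.ext he
      rw [← hv, ← hw, ← hA]
      exact ⟨hR.1, fun h => hR.2 (funext fun i => (he i).2 (congrFun h i))⟩) (by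
      intro W _ G hinj
      obtain ⟨ψ, h1, h2, h3⟩ := hκ W G
      refine ⟨ψ, h1, fun u w => ⟨?_, fun huw => ?_⟩⟩
      · rw [hc.eq_iff, h3 u w]
      · have h4 : u = w := hinj u w fun i => congrFun huw i
        subst h4
        rw [Col.vt hc, h2])
  obtain ⟨rk, hrk⟩ : ∃ rk : I → ℕ, Injective rk :=
    ⟨fun i => (Finite.equivFin I i).val, fun a b hab => (Finite.equivFin I).injective (Fin.ext hab)⟩
  let ex : (I → (S ⊕ X) × Prop) → Prop := fun a => ∃ z z' : I → V, Gen P c rk z z' ∧
    ∀ i, a i = (c (z i) (z' i), z i < z' i)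
  let pr : (I → (S ⊕ X) × Prop) → (S ⊕ X) × Prop := fun a =>
    if h : ex a then H h.choose h.choose_spec.choose else (Sum.inr (Classical.choice hX), False)
  have hpr : ∀ z z' : I → V, Gen P c rk z z' →
      pr (fun i => (c (z i) (z' i), z i < z' i)) = H z z' := by
    intro z z' hzz
    have h : ex (fun i => (c (z i) (z' i), z i < z' i)) := ⟨z, z', hzz, fun i => rfl⟩
    have h1 : pr (fun i => (c (z i) (z' i), z i < z' i)) =
      H h.choose h.choose_spec.choose := dif_pos h
    rw [h1]
    obtain ⟨h2, h3⟩ := h.choose_spec.choose_spec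
    apply hH1
    have h4 : ∀ i, c (z i) (z' i) = c (h.choose i) (h.choose_spec.choose i) := fun i =>
      congrArg Prod.fst (h3 i)
    have h5 : ∀ i, (z i < z' i) = (h.choose i < h.choose_spec.choose i) := fun i =>
      congrArg Prod.snd (h3 i)
    refine same_of hc hrk h2 hzz (fun i => ?_) (fun i => ?_) (fun i => ⟨?_, ?_, (h4 i).symm⟩)
    · have := Col.left' hc (h4 i)
      rw [vt, vt, this]
    · have := Col.right' hc (h4 i)
      rw [vt, vt, this]
    · rw [h5 i]
    · have he := Col.eq_iff' hc (h4 i)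
      have hlt := h5 i
      constructor
      · intro h6
        by_contra h7
        rcases lt_or_eq_of_le (not_lt.1 h7) with h8 | h8
        · rw [hlt] at h8
          exact lt_asymm h6 h8
        · exact h6.ne' (he.1 h8)
      · intro h6
        by_contra h7
        rcases lt_or_eq_of_le (not_lt.1 h7) with h8 | h8
        · rw [← hlt] at h8
          exact lt_asymm h6 h8
        · exact h6.ne' (he.2 h8)
  refine ⟨fun a => Sum.elim (fun _ => Classical.choice hX) id (pr a).1, fun a => (pr a).2,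
    fun W _ G => ?_⟩
  obtain ⟨G', h1, h2⟩ := hG σ V S X P 𝔸 M c hs I W rk hrk G
  obtain ⟨ψ, hψ1, hψ2⟩ := hH3 W G'
  have hty : ∀ i w, vt P c (G' i w) = vt P c (G i w) := by
    intro i w
    rw [vt, vt, (h1 i w w).1]
  have hgen : ∀ u w, Gen P c rk (fun i => G' i u) (fun i => G' i w) := fun u w =>
    ⟨h2 u u, h2 u w, h2 w u, h2 w w⟩
  have heq : ∀ i u w, G' i u = G' i w ↔ G i u = G i w := fun i u w =>
    Col.eq_iff' hc (h1 i u w).1
  have harg : ∀ u w, (fun i => (c (G' i u) (G' i w), G' i u < G' i w)) =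
      fun i => (c (G i u) (G i w), G i u < G i w) := fun u w => funext fun i => by
    rw [(h1 i u w).1, propext (h1 i u w).2]
  refine ⟨ψ, Cx.of_copy hs (fun i u w => (h1 i u w).1) hψ1, fun w => ?_, fun u w => ⟨?_, ?_⟩⟩
  · have h3 := (hH2 (fun i => G' i w) (fun i => G' i w)).2 rfl
    rw [hψ2 w w] at h3
    apply vt_of
    refine Eq.trans h3 ?_
    simp only [hty]
  · have h3 := (hH2 (fun i => G' i u) (fun i => G' i w)).1
    rw [hψ2 u w] at h3
    simp only [hty, heq] at h3
    rw [← h3]
    exact (hc.eq_iff _ _).symm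
  · intro hne
    have h3 := hpr _ _ (hgen u w)
    rw [harg u w, hψ2 u w] at h3
    obtain ⟨t, ht⟩ := Col.inr_of_ne hc hne
    beta_reduce
    rw [h3]
    refine ⟨?_, Iff.rfl⟩
    show c (ψ u) (ψ w) = Sum.inr (Sum.elim (fun _ => Classical.choice hX) id (c (ψ u) (ψ w)))
    rw [ht]
    rfl

end Pool.Agent.H44.SO.CAB
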