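import Pool.Agent.H44.SO.Targets
import Pool.Agent.H44.EQ.All

/-!
# Several orbits of vertices: basic facts
-/

set_option autoImplicit false
set_option linter.unusedVariables false

namespace Pool.Agent.H44.SO

open Pool.Agent.H68.BP Pool.Agent.H58.SF Pool.Agent.H53.GC Pool.Agent.H53.NR
open Pool.Agent.H57.EQ (Cx Tour)
open Pool.Agent.H57.SO
open Function

section

variable {V S X : Type} {P : Pal S X} {c : V → V → S ⊕ X}

theorem Col.vt (hc : Col P c) (x : V) : c x x = Sum.inl (vt P c x) := by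
  obtain ⟨s, hs⟩ := (hc.eq_iff x x).2 rfl
  rw [Pool.Agent.H57.SO.vt, hs]
  rfl

theorem vt_of {x : V} {s : S} (h : c x x = Sum.inl s) : Pool.Agent.H57.SO.vt P c x = s := by
  rw [Pool.Agent.H57.SO.vt, h]
  rfl

theorem Col.vt_iff (hc : Col P c) {x : V} {s : S} :
    Pool.Agent.H57.SO.vt P c x = s ↔ c x x = Sum.inl s :=
  ⟨fun h => by rw [Col.vt hc x, h], vt_of⟩

theorem Col.inl_iff (hc : Col P c) {x y : V} : (∃ s, c x y = Sum.inl s) ↔ x = y := hc.eq_iff x y

theorem Col.eq_of_inl (hc : Col P c) {x y : V} {s : S} (h : c x y = Sum.inl s) : x = y :=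
  (hc.eq_iff x y).1 ⟨s, h⟩

theorem Col.inr_of_ne (hc : Col P c) {x y : V} (h : x ≠ y) : ∃ t, c x y = Sum.inr t := by
  rcases hxy : c x y with s | t
  · exact absurd (Col.eq_of_inl hc hxy) h
  · exact ⟨t, rfl⟩

theorem Col.ne_of_inr (hc : Col P c) {x y : V} {t : X} (h : c x y = Sum.inr t) : x ≠ y := by
  rintro rfl
  rw [Col.vt hc] at h
  exact Sum.inl_ne_inr h

theorem Col.ls (hc : Col P c) {x y : V} {t : X} (h : c x y = Sum.inr t) :
    P.ls t = Pool.Agent.H57.SO.vt P c x := (vt_of (hc.left x y t h)).symm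

theorem Col.rs (hc : Col P c) {x y : V} {t : X} (h : c x y = Sum.inr t) :
    P.rs t = Pool.Agent.H57.SO.vt P c y := (vt_of (hc.right x y t h)).symm

theorem Col.swap' (hc : Col P c) {x y x' y' : V} (h : c x y = c x' y') : c y x = c y' x' := by
  rcases hxy : c x y with s | t
  · have h1 := Col.eq_of_inl hc hxy
    have h2 := Col.eq_of_inl hc (h.symm.trans hxy)
    subst h1
    subst h2
    exact h
  · rw [hc.swap x y t hxy, hc.swap x' y' t (h.symm.trans hxy)]

theorem Col.left' (hc : Col P c) {x y x' y' : V} (h : c x y = c x' y') : c x x = c x' x' := by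
  rcases hxy : c x y with s | t
  · have h1 := Col.eq_of_inl hc hxy
    have h2 := Col.eq_of_inl hc (h.symm.trans hxy)
    subst h1
    subst h2
    exact h
  · rw [hc.left x y t hxy, hc.left x' y' t (h.symm.trans hxy)]

theorem Col.right' (hc : Col P c) {x y x' y' : V} (h : c x y = c x' y') : c y y = c y' y' :=
  Col.left' hc (Col.swap' hc h)

theorem Col.eq_iff' (hc : Col P c) {x y x' y' : V} (h : c x y = c x' y') : x = y ↔ x' = y' := by
  rw [← hc.eq_iff x y, ← hc.eq_iff x' y', h]

theorem cD_self (hc : Col P c) (x : V) :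
    cD P c x x = P.fr (Pool.Agent.H57.SO.vt P c x) (Pool.Agent.H57.SO.vt P c x) := by
  rw [cD, Col.vt hc x]
  rfl

theorem cD_of_ne (hc : Col P c) {x y : V} (h : x ≠ y) : c x y = Sum.inr (cD P c x y) := by
  obtain ⟨t, ht⟩ := Col.inr_of_ne hc h
  rw [cD, ht]
  rfl

theorem cD_of_inr {x y : V} {t : X} (h : c x y = Sum.inr t) : cD P c x y = t := by
  rw [cD, h]
  rfl

end

section

variable {V S X : Type} [LinearOrder V] {P : Pal S X} {c : V → V → S ⊕ X} {σ : Sig}
  {𝔸 : Str σ V} {M : ℕ}

/-- universality of the colouring with values in `X` -/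
theorem univ_cD (hs : Stp P 𝔸 M c) :
    Universal (cD P c) (fun a b => P.fr (P.ls a) (P.ls b)) M := by
  intro n d hd
  have hc := hs.col
  have h1 : ∀ i, d i i = P.fr (P.ls (d i i)) (P.ls (d i i)) := by
    intro i
    obtain ⟨v, hv⟩ := hd 1 (fun _ => i) (le_trans (by norm_num) hs.three)
      (fun a b hab => absurd hab (by rw [Subsingleton.elim a b]; exact lt_irrefl _))
      (fun a b hab => absurd hab (by rw [Subsingleton.elim a b]; exact lt_irrefl _))
    have h2 := hv 0 0 le_rfl
    rw [cD_self hc] at h2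
    rw [← h2, P.ls_fr]
  obtain ⟨f, hf, hft, hfc⟩ := hs.uni n (fun i => P.ls (d i i)) d (by
    intro m s hm hsm hfr
    obtain ⟨v, hv⟩ := hd m s hm hsm hfr
    have ht : ∀ i, c (v i) (v i) = Sum.inl (P.ls (d (s i) (s i))) := by
      intro i
      have h2 := hv i i le_rfl
      rw [cD_self hc] at h2
      rw [← h2, P.ls_fr]
      exact Col.vt hc _
    refine ⟨v, ht, fun i j hij => ?_⟩
    have h2 := hv i j hij.le
    rw [← h2]
    apply cD_of_ne hc
    intro he
    apply hfr i j hij
    have h3 := ht i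
    have h4 := ht j
    rw [he, h4] at h3
    rw [← h2, he, cD_self hc, vt_of h4, Sum.inl.inj h3])
  refine ⟨f, hf, fun i j hij => ?_⟩
  rcases hij.eq_or_lt with rfl | hlt
  · rw [cD_self hc, vt_of (hft i), ← h1]
  · exact cD_of_inr (hfc i j hlt)

/-- the Ramsey property -/
theorem ramsey_cD (hs : Stp P 𝔸 M c) : RamseyFin (cD P c) := by
  have := hs.finX
  exact Pool.Agent.H44.EQ.all_NR3 V X (cD P c) _ M (univ_cD hs)

/-- Combinations of copies are combinations. -/
theorem Cx.of_copy (hs : Stp P 𝔸 M c) {I W : Type} {G G' : I → W → V} {ψ : W → V}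
    (hG : ∀ i u w, c (G' i u) (G' i w) = c (G i u) (G i w)) (h : Cx 𝔸 G' ψ) : Cx 𝔸 G ψ :=
  fun l z hz => h l z fun i => hs.tyi l _ _ (hz i) fun a b => hG i _ _

theorem pf_CFG : T_CFG := by
  intro σ V S X _ P 𝔸 M c hs W R _ _ rk t d hrk hsym hK
  classical
  have := Fintype.ofFinite W
  let _ : LinearOrder W := LinearOrder.lift' rk hrk
  have hlt : ∀ x y : W, x < y ↔ rk x < rk y := fun x y => Iff.rfl
  let e : Fin (Fintype.card W) ≃o W := Fintype.orderIsoFinOfCardEq W rfl
  obtain ⟨f, hf, hft, hfc⟩ := hs.uni (Fintype.card W) (fun i => t (e i)) (fun i j => d (e i) (e j))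
    (by
      intro m s hm hsm hfr
      obtain ⟨u, hu1, hu2⟩ := hK (Set.range fun i => e (s i)) (by
        rintro _ ⟨i, rfl⟩ _ ⟨j, rfl⟩ hne
        rcases lt_trichotomy i j with h | h | h
        · exact hfr i j h
        · exact absurd (by rw [h]) hne
        · intro h2
          refine hfr j i h ?_
          show d (e (s j)) (e (s i)) = P.fr (t (e (s j))) (t (e (s i)))
          have h3 : d (e (s i)) (e (s j)) = P.fr (t (e (s i))) (t (e (s j))) := h2
          rw [hsym (e (s i)) (e (s j)) hne, h3, P.rv_fr])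
      refine ⟨fun i => u (e (s i)), fun i => hu1 _ ⟨i, rfl⟩, fun i j hij => ?_⟩
      refine hu2 _ ⟨i, rfl⟩ _ ⟨j, rfl⟩ fun he => ?_
      exact (hsm hij).ne (e.injective he))
  have hmono : StrictMono fun w => f (e.symm w) := hf.comp e.symm.strictMono
  have hlt' : ∀ x y : W, x < y → c (f (e.symm x)) (f (e.symm y)) = Sum.inr (d x y) := by
    intro x y hxy
    have h1 := hfc (e.symm x) (e.symm y) (e.symm.strictMono hxy)
    simpa using h1
  refine ⟨fun w => f (e.symm w), fun x y => ?_, fun x => ?_, fun x y hxy => ?_⟩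
  · exact hmono.lt_iff_lt
  · have h1 := hft (e.symm x)
    simpa using h1
  · rcases lt_or_gt_of_ne hxy with h | h
    · exact hlt' x y h
    · have h1 := hs.col.swap _ _ _ (hlt' y x h)
      show c (f (e.symm x)) (f (e.symm y)) = Sum.inr (d x y)
      rw [h1, hsym y x hxy.symm]

end

end Pool.Agent.H44.SO
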