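import Pool.Agent.H49.SO.JNE
import Pool.Agent.H68.SO.LCB
import Pool.Agent.H77.SO.CMP
import Pool.Agent.H77.SO.CONN
import Pool.Agent.H37.SO.GEN
import Pool.Agent.H13.SO.CMB
import Pool.Agent.H18.SO.BHH
import Pool.Agent.H85.SO.SYN
import Pool.Agent.H6.SO.CAN
import Pool.Agent.H33.SO.MIN
import Pool.Agent.H3.SO.LTR
import Pool.Agent.H3.SO.VIE
import Pool.Agent.H56.SO.TWO
import Pool.Agent.H48.SO.JEX
import Pool.Agent.H48.SO.TAM
import Pool.Agent.H59.SO.SEP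
import Pool.Agent.H59.SO.KER
import Pool.Agent.H34.SO.INL
import Pool.Agent.H18.EQ.CAS
import Pool.Agent.H44.SO.CAB

/-!
# Several orbits of vertices: behaviours, everything together
-/

set_option autoImplicit false
set_option linter.unusedVariables false

namespace Pool.Agent.H44.SO

open Pool.Agent.H57.SO (T_KER T_CAB T_INJ2)

theorem all_SYN : T_SYN := Pool.Agent.H85.SO.SYN.pf_SYN pf_CFG

theorem all_CAN : T_CAN := Pool.Agent.H6.SO.CAN.pf_CAN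

theorem all_GEN : T_GEN := Pool.Agent.H37.SO.GEN.pf_GEN all_SYN

theorem all_BHH : T_BHH :=
  Pool.Agent.H18.SO.BHH.pf_BHH all_GEN (Pool.Agent.H48.SO.TAM.pf_TAM pf_CFG)

theorem all_KER : T_KER := Pool.Agent.H59.SO.KER.pf_KER all_CAN all_BHH

theorem all_CAB : T_CAB := CAB.pf_CAB all_GEN all_CAN

theorem all_JNE : T_JNE := Pool.Agent.H49.SO.JNE.pf_JNE pf_CFG

theorem all_INL : T_INL :=
  Pool.Agent.H34.SO.INL.pf_INL (Pool.Agent.H48.SO.JEX.pf_JEX Pool.Agent.H3.SO.VIE.pf_VIE) all_JNE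
    (Pool.Agent.H56.SO.TWO.pf_TWO all_SYN Pool.Agent.H77.SO.CMP.pf_CMP)
    (Pool.Agent.H59.SO.SEP.pf_SEP pf_CFG) Pool.Agent.H33.SO.MIN.pf_MIN
    Pool.Agent.H77.SO.CMP.pf_CMP (Pool.Agent.H77.SO.CONN.pf_CON all_SYN)
    (Pool.Agent.H3.SO.LTR.pf_LTR pf_CFG all_JNE) Pool.Agent.H18.EQ.pf_CAS

theorem all_INJ2 : T_INJ2 := fun σ V S X _ P 𝔸 M c hs h hh =>
  Pool.Agent.H13.SO.CMB.pf_CMB σ V S X P 𝔸 M c hs fun s =>
    Pool.Agent.H68.SO.LCB.pf_LCB all_CAN all_BHH σ V S X P 𝔸 M c hs s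
      (all_INL σ V S X P 𝔸 M c hs h hh s)

end Pool.Agent.H44.SO
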