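import Pool.Agent.H44.SO.Basic
import Pool.Agent.H58.SO.Basic

/-!
# Several orbits of vertices: the restriction to a core, from the targets of `Pool.Agent.H58.SO`
-/

set_option autoImplicit false
set_option linter.unusedVariables false

namespace Pool.Agent.H44.SO.PA

open Pool.Agent.H68.BP Pool.Agent.H58.SF Pool.Agent.H53.GC Pool.Agent.H53.NR
open Pool.Agent.H57.EQ (Cx)
open Pool.Agent.H57.SO Pool.Agent.H44.SO
open Pool.Agent.H58.SO (Bs SameD SameO TID ZB Blind PM UM tm Sit NE1 NE2)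
open Function Classical

/-! ### From `Stp` to `Bs` -/

section one

variable {V S X : Type} [LinearOrder V] {P : Pal S X} {c : V → V → S ⊕ X} {σ : Sig}
  {𝔸 : Str σ V} {M : ℕ}

theorem uni_mono {M' : ℕ} (hM : M ≤ M') (h : Uni P c M) : Uni P c M' :=
  fun n t d hd => h n t d fun m s hm => hd m s (hm.trans hM)

theorem stp_mono {M' : ℕ} (hM : M ≤ M') (h : Stp P 𝔸 M c) : Stp P 𝔸 M' c :=
  ⟨h.finS, h.finX, h.ne, h.cnt, h.three.trans hM, h.col, uni_mono hM h.uni, h.tyi⟩

/-- the coloured order -/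
noncomputable def bsOf (hs : Stp P 𝔸 M c) (h4 : 4 ≤ M) : Bs V X S M where
  c := cD P c
  vt := vt P c
  L := P.ls
  Rt := P.rs
  inv := P.rv
  fr := P.fr
  finX := hs.finX
  finT := hs.finS
  ne := hs.ne
  four := h4
  left := fun x y => by
    by_cases h : x = y
    · subst h
      rw [cD_self hs.col, P.ls_fr]
    · exact Col.ls hs.col (cD_of_ne hs.col h)
  right := fun x y => by
    by_cases h : x = y
    · subst h
      rw [cD_self hs.col, P.rs_fr]
    · exact Col.rs hs.col (cD_of_ne hs.col h)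
  sym := fun x y => by
    by_cases h : x = y
    · subst h
      rw [cD_self hs.col, P.rv_fr]
    · exact cD_of_inr (hs.col.swap _ _ _ (cD_of_ne hs.col h))
  diag := fun x => cD_self hs.col x
  surjX := fun t => by
    obtain ⟨x, y, h⟩ := hs.col.surX t
    exact ⟨x, y, cD_of_inr h⟩
  surjT := fun s => by
    obtain ⟨x, h⟩ := hs.col.surS s
    exact ⟨x, vt_of h⟩
  frI := P.rv_fr
  frL := P.ls_fr
  frR := P.rs_fr
  univ := univ_cD hs

theorem blind_bsOf (hs : Stp P 𝔸 M c) (h4 : 4 ≤ M) : Blind (bsOf hs h4) 𝔸 ∅ := by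
  intro l x y hx hxy
  refine hs.tyi l x y hx fun a b => ?_
  have h1 := hxy.2 a b (fun h => h) (fun h => h)
  by_cases h : y a = y b
  · have h2 := h1.1.1 h
    rw [← h, ← h2, Col.vt hs.col (y a), Col.vt hs.col (x a)]
    exact congrArg Sum.inl (hxy.1 a)
  · have h2 : x a ≠ x b := fun h' => h (h1.1.2 h')
    rw [cD_of_ne hs.col h, cD_of_ne hs.col h2]
    exact congrArg Sum.inr h1.2

end one

/-! ### From `Bs` to `Stp` -/

section two

variable {V X Θ : Type} [LinearOrder V] {M : ℕ}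

/-- the palette -/
def palOf (B : Bs V X Θ M) : Pal Θ X where
  ls := B.L
  rs := B.Rt
  rv := B.inv
  fr := B.fr
  ls_fr := B.frL
  rs_fr := B.frR
  rv_fr := B.frI

/-- the types of pairs -/
noncomputable def cOf (B : Bs V X Θ M) (x y : V) : Θ ⊕ X :=
  if x = y then Sum.inl (B.vt x) else Sum.inr (B.c x y)

theorem cOf_self (B : Bs V X Θ M) (x : V) : cOf B x x = Sum.inl (B.vt x) := if_pos rfl

theorem cOf_ne (B : Bs V X Θ M) {x y : V} (h : x ≠ y) : cOf B x y = Sum.inr (B.c x y) := if_neg h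

theorem vt_cOf (B : Bs V X Θ M) (x : V) : vt (palOf B) (cOf B) x = B.vt x := vt_of (cOf_self B x)

theorem uni_cOf (B : Bs V X Θ M) : Uni (palOf B) (cOf B) M := by
  intro n t d hd
  obtain ⟨f, hf, hc⟩ := B.univ n (fun i j => if i = j then B.fr (t i) (t i) else d i j) (by
    intro m s hm hs hfr
    have hfr' : ∀ i j, i < j → d (s i) (s j) ≠ B.fr (t (s i)) (t (s j)) := by
      intro i j hij
      have h1 := hfr i j hij
      rw [if_neg (hs hij).ne] at h1
      simp only [if_true, B.frL] at h1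
      exact h1
    obtain ⟨v, hv1, hv2⟩ := hd m s hm hs hfr'
    refine ⟨v, fun i j hij => ?_⟩
    have ht : ∀ i, B.vt (v i) = t (s i) := fun i => by rw [← vt_cOf B]; exact vt_of (hv1 i)
    rcases hij.eq_or_lt with rfl | h
    · simp only [if_true]
      rw [B.diag, ht]
    · rw [if_neg (hs h).ne]
      have h1 := hv2 i j h
      have hne : v i ≠ v j := by
        intro he
        rw [he, cOf_self] at h1
        exact Sum.inl_ne_inr h1
      rw [cOf_ne B hne] at h1
      exact Sum.inr.inj h1)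
  refine ⟨f, hf, fun i => ?_, fun i j hij => ?_⟩
  · have h1 := hc i i le_rfl
    simp only [if_true] at h1
    rw [cOf_self, ← B.left (f i) (f i), h1, B.frL]
  · have h1 := hc i j hij.le
    rw [if_neg hij.ne] at h1
    rw [cOf_ne B (hf hij).ne, h1]

theorem col_cOf (B : Bs V X Θ M) : Col (palOf B) (cOf B) := by
  refine ⟨fun x y => ?_, fun x y t h => ?_, fun x y t h => ?_, fun x y t h => ?_, fun s => ?_,
    fun t => ?_⟩
  · by_cases h : x = y
    · subst h
      exact ⟨fun _ => rfl, fun _ => ⟨_, cOf_self B x⟩⟩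
    · rw [cOf_ne B h]
      exact ⟨fun ⟨s, hs⟩ => absurd hs (by simp), fun h' => absurd h' h⟩
  · have hne : x ≠ y := by
      rintro rfl
      rw [cOf_self] at h
      exact Sum.inl_ne_inr h
    rw [cOf_ne B hne] at h
    rw [cOf_self, ← Sum.inr.inj h]
    exact congrArg Sum.inl (B.left x y).symm
  · have hne : x ≠ y := by
      rintro rfl
      rw [cOf_self] at h
      exact Sum.inl_ne_inr h
    rw [cOf_ne B hne] at h
    rw [cOf_self, ← Sum.inr.inj h]
    exact congrArg Sum.inl (B.right x y).symm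
  · have hne : x ≠ y := by
      rintro rfl
      rw [cOf_self] at h
      exact Sum.inl_ne_inr h
    rw [cOf_ne B hne] at h
    rw [cOf_ne B hne.symm, ← Sum.inr.inj h]
    exact congrArg Sum.inr (B.sym x y)
  · obtain ⟨x, hx⟩ := B.surjT s
    exact ⟨x, by rw [cOf_self, hx]⟩
  · obtain ⟨x, y, h⟩ := B.surjX t
    by_cases hxy : x = y
    · subst hxy
      -- two free elements of the same type
      obtain ⟨f, hf, hc1, hc2⟩ := uni_cOf B 2 (fun _ => B.vt x)
        (fun _ _ => B.fr (B.vt x) (B.vt x)) (by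
        intro m s _ hs hfr
        refine ⟨fun _ => x, fun _ => cOf_self B x, fun i j hij => absurd rfl (hfr i j hij)⟩)
      refine ⟨f 0, f 1, ?_⟩
      rw [hc2 0 1 (by decide), ← h, B.diag]
    · exact ⟨x, y, by rw [cOf_ne B hxy, h]⟩

theorem tyi_cOf (B : Bs V X Θ M) {σ : Sig} {𝔸 : Str σ V} {D : Set Θ} (h : Blind B 𝔸 D) :
    TyInv 𝔸 (cOf B) := by
  intro l x y hx hxy
  have hc := col_cOf B
  refine h l x y hx ⟨fun a => ?_, fun a b _ _ => ⟨?_, ?_⟩⟩
  · have h1 := hxy a a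
    rw [cOf_self, cOf_self] at h1
    exact Sum.inl.inj h1
  · exact Col.eq_iff' hc (hxy a b)
  · by_cases he : y a = y b
    · have he' := (Col.eq_iff' hc (hxy a b)).1 he
      have h1 := hxy a a
      rw [cOf_self, cOf_self] at h1
      rw [← he, ← he', B.diag, B.diag, Sum.inl.inj h1]
    · have he' : x a ≠ x b := fun h' => he ((Col.eq_iff' hc (hxy a b)).2 h')
      have h1 := hxy a b
      rw [cOf_ne B he, cOf_ne B he'] at h1
      exact Sum.inr.inj h1

theorem stp_cOf (B : Bs V X Θ M) {σ : Sig} {𝔸 : Str σ V} {D : Set Θ} (h : Blind B 𝔸 D)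
    (hV : Countable V) : Stp (palOf B) 𝔸 M (cOf B) :=
  ⟨B.finT, B.finX, B.ne, hV, le_trans (by norm_num) B.four, col_cOf B, uni_cOf B, tyi_cOf B h⟩

/-- the pairs of colours and orders from the types of pairs and the order -/
theorem ct_of_cOf (B : Bs V X Θ M) {x y x' y' : V} (h : cOf B x y = cOf B x' y')
    (ho : x < y ↔ x' < y') : B.ct x' y' = B.ct x y := by
  have hc := col_cOf B
  have he := Col.eq_iff' hc h
  rw [B.ct_eq_ct]
  refine ⟨?_, ho.symm, ?_⟩
  · by_cases hxy : x = y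
    · have hxy' := he.1 hxy
      subst hxy
      subst hxy'
      rw [cOf_self, cOf_self] at h
      rw [B.diag, B.diag, Sum.inl.inj h]
    · have hxy' : x' ≠ y' := fun h' => hxy (he.2 h')
      rw [cOf_ne B hxy, cOf_ne B hxy'] at h
      exact (Sum.inr.inj h).symm
  · constructor
    · intro h1
      by_contra h2
      have h3 : x ≠ y := fun h' => h1.ne' (he.1 h')
      have h4 : x < y := lt_of_le_of_ne (not_lt.1 h2) h3
      exact lt_asymm h1 (ho.1 h4)
    · intro h1
      by_contra h2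
      have h3 : x' ≠ y' := fun h' => h1.ne' (he.2 h')
      have h4 : x' < y' := lt_of_le_of_ne (not_lt.1 h2) h3
      exact lt_asymm h1 (ho.2 h4)

theorem same_iff (B : Bs V X Θ M) {I : Type} {x y : I → V} (h : Same (cOf B) x y) (D : Set Θ) :
    SameO B D x y := by
  refine ⟨fun a => ?_, fun a b _ _ => ct_of_cOf B (h a b).2 (h a b).1⟩
  have h1 := (h a a).2
  rw [cOf_self, cOf_self] at h1
  exact (Sum.inl.inj h1).symm

/-- the types of the pairs of values, where blocks with blind values are separated -/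
noncomputable def hOf (B : Bs V X Θ M) (D : Set Θ) (h : (Fin 6 → V) → (Fin 6 → V) → X × Ordering)
    (v w : Fin 6 → V) : Θ ⊕ X :=
  if (h v w).2 = Ordering.eq then
    (if B.L (h v w).1 ∈ D ∧ v ≠ w then Sum.inr (B.fr (B.L (h v w).1) (B.L (h v w).1))
      else Sum.inl (B.L (h v w).1))
  else Sum.inr (h v w).1

theorem pat_eq_iff {Y : Type} (r : Fin 3) (x y x' y' : Y) :
    pat r x y = pat r x' y' ↔ x = x' ∧ y = y' := by
  constructor
  · intro h
    have h0 := congrFun h 0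
    have h1 := congrFun h 1
    have h2 := congrFun h 2
    have h3 := congrFun h 3
    have h4 := congrFun h 4
    have h5 := congrFun h 5
    fin_cases r <;> simp_all [pat]
  · rintro ⟨rfl, rfl⟩
    rfl

end two

/-! ### The core -/

section three

variable {V X Θ : Type} [LinearOrder V] {M : ℕ} {σ : Sig} {𝔸 : Str σ V} {D : Set Θ}
  {B : Bs V X Θ M} {h : (Fin 6 → V) → (Fin 6 → V) → X × Ordering}

theorem cOf_of_ct {x y x' y' : V} (h : B.ct x y = B.ct x' y') : cOf B x y = cOf B x' y' := by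
  obtain ⟨h1, h2, h3⟩ := B.ct_eq_imp h
  by_cases he : x = y
  · have he' := h1.1 he
    subst he
    subst he'
    rw [cOf_self, cOf_self, h2]
  · rw [cOf_ne B he, cOf_ne B fun h' => he (h1.2 h')]
    exact congrArg Sum.inr (congrArg Prod.fst h)

/-- the values of `h` are those of pairs of elements -/
theorem pm_pair (hp : PM B 𝔸 h) (u v w : Fin 6 → V) : ∃ x y z : V, B.ct x y = h u v ∧
    B.ct x z = h u w ∧ B.ct y z = h v w ∧ B.ct x x = h u u ∧ B.ct y y = h v v := by
  have h3 : 3 ≤ M := le_trans (by norm_num) B.four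
  obtain ⟨x, -, hx⟩ := hp none (fun a => if a.val = 0 then u else if a.val = 1 then v else w)
    (fun _ => trivial)
  refine ⟨x ⟨0, by show 0 < M; omega⟩, x ⟨1, by show 1 < M; omega⟩, x ⟨2, by show 2 < M; omega⟩,
    ?_, ?_, ?_, ?_, ?_⟩
  · rw [hx]; rfl
  · rw [hx]; rfl
  · rw [hx]; rfl
  · rw [hx]; rfl
  · rw [hx]; rfl

theorem pm_refl (hp : PM B 𝔸 h) (u : Fin 6 → V) : (h u u).2 = Ordering.eq := by
  obtain ⟨x, y, z, -, -, -, h1, -⟩ := pm_pair hp u u u
  rw [← h1, B.ct_self]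

theorem pm_L (hp : PM B 𝔸 h) (u v : Fin 6 → V) : B.L (h u v).1 = B.L (h u u).1 := by
  obtain ⟨x, y, z, h1, -, -, h2, -⟩ := pm_pair hp u v v
  rw [← h1, ← h2, B.ct_fst, B.ct_fst, B.left, B.left]

theorem can_hOf (hS : T_SYN) (hE : Pool.Agent.H58.SO.T_EXT) (hst : Stp (palOf B) 𝔸 M (cOf B))
    (hb : Blind B 𝔸 D) (hp : PM B 𝔸 h) (ht : TID B D h) :
    Can 𝔸 (cOf B) (Fin 6) (hOf B D h) := by
  refine ⟨fun v w v' w' hvw => ?_, fun W _ G => ?_⟩
  · have h1 : h v w = h v' w' := ht v w v' w' (by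
      have := same_iff B hvw D
      exact ⟨fun a => (this.1 a), fun a b ha hb => this.2 a b ha hb⟩)
    have h2 : v = w ↔ v' = w' := by
      have h3 : ∀ i, v i = w i ↔ v' i = w' i := fun i =>
        Col.eq_iff' (col_cOf B) (hvw (Sum.inl i) (Sum.inr i)).2
      exact ⟨fun h => funext fun i => (h3 i).1 (congrFun h i),
        fun h => funext fun i => (h3 i).2 (congrFun h i)⟩
    unfold hOf
    rw [h1]
    simp only [ne_eq, h2]
  · obtain ⟨γ, hγ1, hγ2⟩ := hE σ V X Θ M B 𝔸 D hb (Fin 6) h hp W (fun w i => G i w)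
    let nm : W → V × Option (Fin 6 → V) := fun w =>
      (γ w, if B.vt (γ w) ∈ D then some (fun i => G i w) else none)
    have : Finite (Set.range nm) := Set.finite_range nm
    obtain ⟨f, hf1, hf2, hf3⟩ := hS σ V Θ X (palOf B) 𝔸 M (cOf B) hst (Set.range nm) ℕ
      (fun n => (Finite.equivFin (Set.range nm) n).val) (fun n => n.1.1) (fun _ _ => True)
      (fun n n' hn => (Finite.equivFin (Set.range nm)).injective (Fin.ext hn)) (fun _ _ h => h)
    have hty : ∀ w, cOf B (f ⟨nm w, w, rfl⟩) (f ⟨nm w, w, rfl⟩) = Sum.inl (B.vt (γ w)) :=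
      fun w => by rw [hf2]; exact cOf_self B _
    have key : ∀ w w', cOf B (f ⟨nm w, w, rfl⟩) (f ⟨nm w', w', rfl⟩) =
        hOf B D h (fun i => G i w) (fun i => G i w') := by
      intro w w'
      have hL : B.L (h (fun i => G i w) (fun i => G i w')).1 = B.vt (γ w) := by
        rw [← hγ1, B.ct_fst, B.left]
      have h2 : (h (fun i => G i w) (fun i => G i w')).2 = Ordering.eq ↔ γ w = γ w' := by
        rw [← hγ1, B.ct_snd_eq]
      unfold hOf
      rw [hL]
      by_cases hn : nm w = nm w'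
      · have e : (⟨nm w, w, rfl⟩ : Set.range nm) = ⟨nm w', w', rfl⟩ := Subtype.ext hn
        have e1 : γ w = γ w' := congrArg Prod.fst hn
        have e2 : B.vt (γ w) ∈ D → (fun i => G i w) = (fun i => G i w') := by
          intro hD
          have h3 := congrArg Prod.snd hn
          have hD' : B.vt (γ w') ∈ D := e1 ▸ hD
          simp only [nm, hD, hD', if_true] at h3
          exact Option.some_injective _ h3
        rw [← e, hty, if_pos (h2.2 e1), if_neg]
        rintro ⟨h4, h5⟩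
        exact h5 (e2 h4)
      · have hne : (⟨nm w, w, rfl⟩ : Set.range nm) ≠ ⟨nm w', w', rfl⟩ :=
          fun h' => hn (congrArg Subtype.val h')
        obtain ⟨h3, h4⟩ := hf3 _ _ hne
        by_cases e1 : γ w = γ w'
        · have h5 := h4 (by
            rintro ⟨-, h6⟩
            exact h6 e1)
          rw [h5, if_pos (h2.2 e1), if_pos]
          · show Sum.inr (B.fr (vt (palOf B) (cOf B) (γ w)) (vt (palOf B) (cOf B) (γ w'))) = _
            rw [vt_cOf, vt_cOf, e1]
          · have hD : B.vt (γ w) ∈ D := by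
              by_contra hD
              apply hn
              have hD' : B.vt (γ w') ∉ D := e1 ▸ hD
              simp only [nm, hD', if_false, e1]
            refine ⟨hD, fun h6 => hn ?_⟩
            have hD' : B.vt (γ w') ∈ D := e1 ▸ hD
            simp only [nm, hD', if_true, e1, h6]
        · have h5 : cOf B (f ⟨nm w, w, rfl⟩) (f ⟨nm w', w', rfl⟩) = cOf B (γ w) (γ w') :=
            h3 trivial e1
          rw [h5, cOf_ne B e1, if_neg (fun h' => e1 (h2.1 h')), ← hγ1]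
          rfl
    refine ⟨fun w => f ⟨nm w, w, rfl⟩, fun l z hz => ?_, key⟩
    have h1 : 𝔸 l (fun a => γ (z a)) := hγ2 (some l) z hz
    have hvt : ∀ w, B.vt (f ⟨nm w, w, rfl⟩) = B.vt (γ w) := fun w => by
      have h2 := hty w
      rw [cOf_self] at h2
      exact Sum.inl.inj h2
    have hcc : ∀ w w', B.vt (γ w) ∉ D → B.vt (γ w') ∉ D →
        cOf B (f ⟨nm w, w, rfl⟩) (f ⟨nm w', w', rfl⟩) = cOf B (γ w) (γ w') := by
      intro w w' hD hD'
      have hL : B.L (h (fun i => G i w) (fun i => G i w')).1 = B.vt (γ w) := by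
        rw [← hγ1, B.ct_fst, B.left]
      have h2 : (h (fun i => G i w) (fun i => G i w')).2 = Ordering.eq ↔ γ w = γ w' := by
        rw [← hγ1, B.ct_snd_eq]
      rw [key, hOf, hL]
      by_cases e : γ w = γ w'
      · rw [if_pos (h2.2 e), if_neg (fun h' => hD h'.1), e, cOf_self]
      · rw [if_neg (fun h' => e (h2.1 h')), cOf_ne B e, ← hγ1]
        rfl
    refine hb l _ _ h1 ⟨fun a => hvt (z a), fun a b ha hb' => ⟨?_, ?_⟩⟩
    · exact Col.eq_iff' (col_cOf B) (hcc (z a) (z b) ha hb')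
    · have h2 := hcc (z a) (z b) ha hb'
      have h3 := Col.eq_iff' (col_cOf B) h2
      by_cases e : γ (z a) = γ (z b)
      · show B.c (f ⟨nm (z a), z a, rfl⟩) (f ⟨nm (z b), z b, rfl⟩) = B.c (γ (z a)) (γ (z b))
        rw [h3.2 e, B.diag, hvt, e, B.diag]
      · rw [cOf_ne B e, cOf_ne B fun h' => e (h3.1 h')] at h2
        exact Sum.inr.inj h2

/-- the shape of a free block -/
theorem zb_of_fbl {s : Θ} {z : Fin 6 → V} (hz : FBl (palOf B) (cOf B) s z) :
    (∀ l, B.vt (z l) = s) ∧ ∃ κ, ZB B κ z := by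
  have ht : ∀ l, B.vt (z l) = s := fun l => by
    rw [← vt_cOf B]
    exact vt_of (hz.1 l)
  refine ⟨ht, fun l => (Finset.univ.filter fun l' => z l' < z l).card, ?_⟩
  have hlt : ∀ l l', z l < z l' → (Finset.univ.filter fun i => z i < z l).card <
      (Finset.univ.filter fun i => z i < z l').card := by
    intro l l' h1
    refine Finset.card_lt_card ⟨fun i hi => ?_, fun h2 => ?_⟩
    · simp only [Finset.mem_filter, Finset.mem_univ, true_and] at hi ⊢
      exact hi.trans h1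
    · have h3 := h2 (Finset.mem_filter.2 ⟨Finset.mem_univ l, h1⟩)
      simp at h3
  intro l l'
  refine ⟨fun h1 => ?_, fun h1 => ?_⟩ <;> beta_reduce at h1
  · rcases lt_trichotomy (z l) (z l') with h2 | h2 | h2
    · have := hlt _ _ h2
      omega
    · exact h2
    · have := hlt _ _ h2
      omega
  · have h2 : z l < z l' := by
      rcases lt_trichotomy (z l) (z l') with h2 | h2 | h2
      · exact h2
      · rw [h2] at h1
        omega
      · have := hlt _ _ h2
        omega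
    refine ⟨h2, ?_⟩
    have h3 := hz.2 l l' h2.ne
    rw [cOf_ne B h2.ne] at h3
    rw [ht, ht]
    exact Sum.inr.inj h3

open Classical in
/-- the colour and the order from the type and the order -/
noncomputable def val (B : Bs V X Θ M) (a : (Θ ⊕ X) × Prop) : X × Ordering :=
  match a.1 with
  | Sum.inl s => (B.fr s s, Ordering.eq)
  | Sum.inr t => (t, if a.2 then Ordering.lt else Ordering.gt)

theorem val_ct (x y : V) : val B (cOf B x y, x < y) = B.ct x y := by
  by_cases h : x = y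
  · subst h
    rw [cOf_self, B.ct_self]
    rfl
  · rw [cOf_ne B h]
    refine Prod.ext rfl ?_
    by_cases h1 : x < y
    · simp only [val, h1, if_true, B.ct_snd]
      exact ((cmp_eq_lt_iff x y).2 h1).symm
    · have h2 : y < x := lt_of_le_of_ne (not_lt.1 h1) (Ne.symm h)
      simp only [val, h1, if_false, B.ct_snd]
      exact ((cmp_eq_gt_iff x y).2 h2).symm

/-- the action of local unary maps on the types is the action of a canonical map -/
theorem perm_of_ne1 (hK : T_CAN) (hst : Stp (palOf B) 𝔸 M (cOf B)) (hn : NE1 B 𝔸)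
    {γ : Θ → Θ} (hγ : Sb 𝔸 (cOf B) γ) : Bijective γ := by
  obtain ⟨H, hH1, hH2, hH3⟩ := hK σ V Θ X (palOf B) 𝔸 M (cOf B) hst Unit
    (fun v w y => v = w → y = Sum.inl (γ (vt (palOf B) (cOf B) (v ())))) (by
      intro v w v' w' y hvw h1 h2
      have h3 : v = w := funext fun i =>
        (Col.eq_iff' (col_cOf B) (hvw (Sum.inl i) (Sum.inr i)).2).2 (congrFun h2 i)
      have h4 := (hvw (Sum.inl ()) (Sum.inl ())).2
      simp only [Sum.elim_inl] at h4
      rw [h1 h3, vt_cOf, vt_cOf]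
      rw [cOf_self, cOf_self] at h4
      rw [Sum.inl.inj h4]) (by
      intro W _ G hG
      obtain ⟨ψ, h1, h2⟩ := hγ W (G ())
      refine ⟨ψ, h1, fun u w huw => ?_⟩
      have h3 : u = w := hG u w fun i => congrFun huw i
      subst h3
      exact h2 u _ (Col.vt (col_cOf B) (G () u)))
  let m : X × Ordering → X × Ordering := fun t =>
    if h : ∃ x y, B.ct x y = t then
      val B (H (fun _ => h.choose) (fun _ => h.choose_spec.choose)) else t
  have hm : ∀ x y, m (B.ct x y) = val B (H (fun _ => x) (fun _ => y)) := by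
    intro x y
    have h : ∃ x' y', B.ct x' y' = B.ct x y := ⟨x, y, rfl⟩
    have h1 : m (B.ct x y) = val B (H (fun _ => h.choose) (fun _ => h.choose_spec.choose)) :=
      dif_pos h
    rw [h1]
    congr 1
    have h2 := h.choose_spec.choose_spec
    apply hH1
    have h3 := cOf_of_ct h2
    have h4 := B.ct_eq_ct.1 h2
    have h5 := cOf_of_ct (B.ct_symm h2)
    intro i j
    rcases i with i | i <;> rcases j with j | j
    · refine ⟨by simp, ?_⟩
      simp only [Sum.elim_inl]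
      rw [cOf_self, cOf_self, (B.ct_eq_imp h2).2.1]
    · exact ⟨h4.2.1, h3⟩
    · exact ⟨h4.2.2, h5⟩
    · refine ⟨by simp, ?_⟩
      simp only [Sum.elim_inr]
      rw [cOf_self, cOf_self, (B.ct_eq_imp h2).2.2]
  have hum : UM B B 𝔸 𝔸 m := by
    intro s x hx
    obtain ⟨ψ, h1, h2⟩ := hH3 (Fin (arP σ M s)) (fun _ => x)
    refine ⟨ψ, ?_, fun a b => ?_⟩
    · cases s with
      | none => trivial
      | some l => exact h1 l (fun a => a) fun _ => hx
    · rw [hm, h2 a b, val_ct]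
  have htm : tm B B m = γ := by
    funext s
    obtain ⟨x, hx⟩ := B.surjT s
    have h1 : (B.fr s s, Ordering.eq) = B.ct x x := by rw [B.ct_self, hx]
    unfold tm
    rw [h1, hm]
    have h2 := hH2 (fun _ => x) (fun _ => x) rfl
    unfold val
    rw [h2, vt_cOf, hx]
    exact B.frL _ _
  rw [← htm]
  exact hn m hum

theorem core_hOf (hS : T_SYN) (hK : T_CAN) (hE : Pool.Agent.H58.SO.T_EXT)
    (hN : Pool.Agent.H58.SO.T_NCT) (hV : Countable V) (hc : Pool.Agent.H58.SO.Core B 𝔸 D h) :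
    Stp (palOf B) 𝔸 M (cOf B) ∧ Core (palOf B) 𝔸 (cOf B) (hOf B D h) := by
  have hst := stp_cOf B hc.sit.blind hV
  refine ⟨hst, can_hOf hS hE hst hc.sit.blind hc.sit.pm hc.sit.tid, ?_,
    fun γ hγ => perm_of_ne1 hK hst hc.ne1 hγ, fun s z hz => ?_, fun s z z' hz hz' hd s' => ?_⟩
  · intro r x y x' y'
    unfold hOf
    rw [hc.sit.exact r x y x' y']
    simp only [ne_eq, pat_eq_iff]
  · obtain ⟨ht, κ, hκ⟩ := zb_of_fbl hz
    unfold hOf
    rw [if_pos (pm_refl hc.sit.pm z), if_neg (fun h' => h'.2 rfl), hc.pur κ s z hκ ht]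
  · obtain ⟨ht, κ, hκ⟩ := zb_of_fbl hz
    obtain ⟨ht', κ', hκ'⟩ := zb_of_fbl hz'
    have hne : z ≠ z' := fun h' => hd 0 0 (congrFun h' 0)
    unfold hOf
    by_cases h2 : (h z z').2 = Ordering.eq
    · have hs : s ∈ D := by
        by_contra hs
        exact hN σ V X Θ M B 𝔸 D h hc.sit hc.ne2 κ κ' s z z' hs ht ht' hκ hκ' hd h2
      have h3 : B.L (h z z').1 = s := by
        rw [pm_L hc.sit.pm z z', hc.pur κ s z hκ ht]
      rw [if_pos h2, if_pos ⟨by rw [h3]; exact hs, hne⟩]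
      exact Sum.inr_ne_inl
    · rw [if_neg h2]
      exact Sum.inr_ne_inl

end three

theorem glue_PA (hS : T_SYN) (hK : T_CAN) (hH0 : Pool.Agent.H58.SO.T_HH0) (hSTR : Pool.Agent.H58.SO.T_STR)
    (hSTC : Pool.Agent.H58.SO.T_STC) (hSTN : Pool.Agent.H58.SO.T_STN)
    (hE : Pool.Agent.H58.SO.T_EXT) (hN : Pool.Agent.H58.SO.T_NCT)
    (hHTR : Pool.Agent.H58.SO.T_HTR) : Pool.Agent.H57.SO.T_PA := by
  intro σ V S X _ P 𝔸 M c hs₀ hol hK3
  have hs : Stp P 𝔸 (max M 4) c := stp_mono (le_max_left _ _) hs₀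
  have h4 : 4 ≤ max M 4 := le_max_right _ _
  have hb := blind_bsOf hs h4
  obtain ⟨h, hh⟩ := hH0 σ V X S (max M 4) (bsOf hs h4) 𝔸 hs.cnt hol (ramsey_cD hs) hK3 hb
  obtain ⟨V₁, X₁, Θ₁, _, B₁, 𝔸₁, h₁, m₁, n₁, hcnt, hh₁, hm₁, hn₁, hne₁⟩ :=
    hSTR σ V X S (max M 4) (bsOf hs h4) 𝔸 h hh
  obtain ⟨D, 𝔸₂, h₂, m₂, n₂, hh₂, hne1, hne2, hm₂, hn₂⟩ :=
    hSTC σ V₁ X₁ Θ₁ (max M 4) B₁ 𝔸₁ h₁ hh₁ hne₁
  obtain ⟨h₃, hh₃⟩ := hSTN σ V₁ X₁ Θ₁ (max M 4) B₁ 𝔸₂ D h₂ hh₂ hne1 hne2
  obtain ⟨hst, hcore⟩ := core_hOf hS hK hE hN (hcnt hs.cnt) hh₃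
  refine ⟨V₁, Θ₁, X₁, inferInstance, palOf B₁, 𝔸₂, max M 4, cOf B₁, hOf B₁ D h₃, hst, hcore,
    fun n 𝕏 => ⟨fun hf => ?_, fun hf => ?_⟩⟩
  · have h5 := hHTR σ V₁ X₁ Θ₁ V₁ X₁ Θ₁ (max M 4) B₁ B₁ 𝔸₂ 𝔸₁ ∅ n₂ hn₂ hh₁.blind n 𝕏 hf
    exact hHTR σ V₁ X₁ Θ₁ V X S (max M 4) B₁ (bsOf hs h4) 𝔸₁ 𝔸 ∅ n₁ hn₁ hb n 𝕏 h5
  · have h5 := hHTR σ V X S V₁ X₁ Θ₁ (max M 4) (bsOf hs h4) B₁ 𝔸 𝔸₁ ∅ m₁ hm₁ hh₁.blind n 𝕏 hf
    exact hHTR σ V₁ X₁ Θ₁ V₁ X₁ Θ₁ (max M 4) B₁ B₁ 𝔸₁ 𝔸₂ D m₂ hm₂ hh₂.blind n 𝕏 h5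

end Pool.Agent.H44.SO.PA
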