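import Pool.Agent.H44.SO.Basic
import Pool.Agent.H68.GC.OLF0

/-!
# From maps depending on linear orders to polymorphisms of the template
-/

set_option autoImplicit false
set_option linter.unusedVariables false

namespace Pool.Agent.H44.SO.TOF

open Pool.Agent.H68.BP Pool.Agent.H58.SF Pool.Agent.H53.GC Pool.Agent.H53.NR
open Pool.Agent.H57.EQ (Cx Tour)
open Pool.Agent.H57.SO Pool.Agent.H44.SO
open Pool.Agent.H44.EQ (T_ALW)
open Function Classical

section majority

/-- the majority -/
noncomputable def maj {Y : Type} (A : Y → Prop) : Bool :=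
  decide (Nat.card Y < 2 * Nat.card {v // A v})

theorem maj_not {Y : Type} [Finite Y] (h : Odd (Nat.card Y)) (A B : Y → Prop)
    (hAB : ∀ v, B v ↔ ¬ A v) : maj B = !(maj A) := by
  have h1 : Nat.card {v // A v} + Nat.card {v // ¬ A v} = Nat.card Y := by
    rw [← Nat.card_sum]
    exact Nat.card_congr (Equiv.sumCompl A)
  have h2 : Nat.card {v // B v} = Nat.card {v // ¬ A v} :=
    Nat.card_congr (Equiv.subtypeEquivRight hAB)
  obtain ⟨k, hk⟩ := h
  unfold maj
  rw [h2]
  by_cases h3 : Nat.card Y < 2 * Nat.card {v // A v}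
  · have h4 : ¬ Nat.card Y < 2 * Nat.card {v // ¬ A v} := by omega
    simp [h3, h4]
  · have h4 : Nat.card Y < 2 * Nat.card {v // ¬ A v} := by omega
    simp [h3, h4]

theorem maj_congr {Y : Type} (e : Y ≃ Y) (A B : Y → Prop) (h : ∀ v, A v ↔ B (e v)) :
    maj A = maj B := by
  have h1 : Nat.card {v // A v} = Nat.card {v // B v} :=
    Nat.card_congr (e.subtypeEquiv h)
  unfold maj
  rw [h1]

theorem odd_pow {I : Type} [Finite I] {p : ℕ} (hp : Odd p) : Odd (Nat.card (I → ZMod p)) := by
  rw [Nat.card_fun, Nat.card_zmod]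
  exact hp.pow

end majority

section

variable {V S X : Type} {σ : Sig}

/-- the entry of a pair with the pattern `z` for the linear order with the number `j` -/
noncomputable def ent {p : ℕ} (z : Ec S X) (j : ZMod p) : (S ⊕ X) × Prop :=
  match z with
  | Sum.inl s => (Sum.inl s, False)
  | Sum.inr t => (Sum.inr (if t.2 = decide (j.val < (p + 1) / 2) then t.1.1 else t.1.2),
      t.2 = decide (j.val < (p + 1) / 2))

/-- The tuples of a family, in the orders of an almost linear tournament. -/
theorem fam_ord [LinearOrder V] (hO : T_ORD) {P : Pal S X} {𝔸 : Str σ V} {M : ℕ}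
    {c : V → V → S ⊕ X} (hs : Stp P 𝔸 M c) {p : ℕ} (s : Option (Fin σ.m))
    (hP : ∀ o : Fin (arP σ M s) → Fin (arP σ M s) → Prop,
      (∀ a b, a ≠ b → (o a b ↔ ¬ o b a)) → ∃ rk : ZMod p → Fin (arP σ M s) → ℕ,
        (∀ i, Function.Injective (rk i)) ∧ ∀ a b, a ≠ b → o a b →
          ∃ j : ZMod p, ∀ i : ZMod p, rk i a < rk i b ↔ (i - j).val < (p + 1) / 2)
    (q : Fin (arP σ M s) × Fin (arP σ M s) → Ec S X) (hq : FamP 𝔸 M c s q) :
    ∃ (k : Fin (arP σ M s) → ℕ) (x : ZMod p → Fin (arP σ M s) → V)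
      (j₀ : Fin (arP σ M s) → Fin (arP σ M s) → ZMod p),
      (∀ j, relP 𝔸 M s (x j)) ∧ (∀ j a b, x j a = x j b ↔ k a = k b) ∧
      (∀ a b, ((shp P (q (a, b))).2 = true ↔ k a = k b)) ∧
      (∀ j a b, vt P c (x j a) = (shp P (q (a, b))).1.1 ∧
        vt P c (x j b) = (shp P (q (a, b))).1.2) ∧
      ∀ j a b, (c (x j a) (x j b), x j a < x j b) = ent (q (a, b)) (j - j₀ a b) := by
  obtain ⟨k, T, hT, hk, hsg, hfam⟩ := hq
  -- representatives of the labels
  have hlab : ∃ lab : Fin (arP σ M s) → Fin (arP σ M s), (∀ a, k (lab a) = k a) ∧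
      ∀ a b, k a = k b → lab a = lab b := by
    refine ⟨fun a => Classical.choose (⟨a, rfl⟩ : ∃ b, k b = k a), fun a =>
      Classical.choose_spec (⟨a, rfl⟩ : ∃ b, k b = k a), fun a b hab => ?_⟩
    simp only [hab]
  obtain ⟨lab, hlab1, hlab2⟩ := hlab
  have hlabk : ∀ a b, lab a = lab b ↔ k a = k b :=
    fun a b => ⟨fun h => by rw [← hlab1 a, ← hlab1 b, h], hlab2 a b⟩
  -- the tournament on the labels
  let o : Fin (arP σ M s) → Fin (arP σ M s) → Prop :=
    fun a b => if k a = k b then a < b else T (k a) (k b) = true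
  obtain ⟨rk, hrk, hj⟩ := hP o (by
    intro a b hab
    show (if k a = k b then a < b else T (k a) (k b) = true) ↔
      ¬ (if k b = k a then b < a else T (k b) (k a) = true)
    by_cases h : k a = k b
    · rw [if_pos h, if_pos h.symm, not_lt]
      exact ⟨fun h => h.le, fun h => lt_of_le_of_ne h hab⟩
    · rw [if_neg h, if_neg (Ne.symm h), hT _ _ h]
      cases T (k a) (k b) <;> simp)
  have hrk' : ∀ j a b, rk j (lab a) = rk j (lab b) ↔ k a = k b := fun j a b => by
    rw [(hrk j).eq_iff, hlabk]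
  -- the tuples
  have hx : ∀ j, ∃ x : Fin (arP σ M s) → V, relP 𝔸 M s x ∧ (∀ a b, x a = x b ↔ k a = k b) ∧
      (∀ a b t, q (a, b) = Sum.inl t → c (x a) (x b) = Sum.inl t) ∧
      (∀ a b t, q (a, b) = Sum.inr t →
        c (x a) (x b) = Sum.inr (if rk j (lab a) < rk j (lab b) then t.1.1 else t.1.2)) ∧
      ∀ a b, x a < x b ↔ rk j (lab a) < rk j (lab b) := by
    intro j
    obtain ⟨x, hx1, hx2, hx3, hx4⟩ := hfam (fun a => rk j (lab a)) (hrk' j)
    obtain ⟨x', hx'1, hx'2⟩ := hO σ V S X P 𝔸 M c hs (Fin (arP σ M s)) x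
      (fun a => rk j (lab a)) (fun a b => by rw [hrk', hx2])
    refine ⟨x', ?_, fun a b => ?_, fun a b t h => ?_, fun a b t h => ?_, hx'2⟩
    · cases s with
      | none => trivial
      | some l => exact hs.tyi l x x' hx1 hx'1
    · rw [Col.eq_iff' hs.col (hx'1 a b), hx2]
    · rw [hx'1, hx3 a b t h]
    · rw [hx'1, hx4 a b t h]
  choose x hx1 hx2 hx3 hx4 hx5 using hx
  -- the shifts
  have hjj : ∀ a b, ∃ j₀ : ZMod p, k a ≠ k b → ∀ j : ZMod p,
      (rk j (lab a) < rk j (lab b) ↔ T (k a) (k b) = decide ((j - j₀).val < (p + 1) / 2)) := by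
    intro a b
    by_cases h : k a = k b
    · exact ⟨0, fun h' => absurd h h'⟩
    have hne : lab a ≠ lab b := fun h' => h ((hlabk a b).1 h')
    cases hTab : T (k a) (k b) with
    | true =>
      obtain ⟨j₀, hj₀⟩ := hj (lab a) (lab b) hne (by
        show if k (lab a) = k (lab b) then _ else T (k (lab a)) (k (lab b)) = true
        rw [hlab1, hlab1, if_neg h]
        exact hTab)
      refine ⟨j₀, fun _ j => ?_⟩
      rw [hj₀ j]
      simp
    | false =>
      obtain ⟨j₀, hj₀⟩ := hj (lab b) (lab a) hne.symm (by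
        show if k (lab b) = k (lab a) then _ else T (k (lab b)) (k (lab a)) = true
        rw [hlab1, hlab1, if_neg (Ne.symm h), hT _ _ h, hTab]
        rfl)
      refine ⟨j₀, fun _ j => ?_⟩
      have h1 : rk j (lab a) ≠ rk j (lab b) := fun h' => h ((hrk' j a b).1 h')
      have h2 : rk j (lab a) < rk j (lab b) ↔ ¬ rk j (lab b) < rk j (lab a) := by omega
      rw [h2, hj₀ j]
      simp
  choose j₀ hj₀ using hjj
  have hkk : ∀ a b, (shp P (q (a, b))).2 = true ↔ k a = k b := by
    intro a b
    rw [← hk a b]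
    rcases hqab : q (a, b) with t | t
    · simp [shp]
    · simp [shp]
  -- the types
  have hdiag : ∀ a, ∃ t, q (a, a) = Sum.inl t := fun a => (hk a a).2 rfl
  have hty : ∀ a b, ∃ u v : V, (∀ t, q (a, a) = Sum.inl t → c u u = Sum.inl t) ∧
      (∀ t, q (b, b) = Sum.inl t → c v v = Sum.inl t) ∧
      (∀ t, q (a, b) = Sum.inl t → c u v = Sum.inl t) ∧
      ∀ t, q (a, b) = Sum.inr t → c u v = Sum.inr t.1.1 := by
    intro a b
    by_cases h : k a = k b
    · obtain ⟨x, -, -, h3, h4⟩ := hfam k (fun a b => Iff.rfl)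
      refine ⟨x a, x b, h3 a a, h3 b b, h3 a b, fun t ht => ?_⟩
      obtain ⟨t', ht'⟩ := (hk a b).2 h
      rw [ht'] at ht
      exact absurd ht Sum.inl_ne_inr
    · obtain ⟨x, -, -, h3, h4⟩ := hfam
        (fun e => if k e = k a then 0 else if k e = k b then 1 else k e + 2) (by
        intro e e'
        constructor
        · intro h1
          split_ifs at h1 <;> omega
        · intro h1
          rw [h1])
      refine ⟨x a, x b, h3 a a, h3 b b, h3 a b, fun t ht => ?_⟩
      rw [h4 a b t ht, if_pos]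
      simp only [if_true, if_neg (Ne.symm h)]
      norm_num
  have hvt : ∀ j a b, vt P c (x j a) = (shp P (q (a, b))).1.1 ∧
      vt P c (x j b) = (shp P (q (a, b))).1.2 := by
    intro j a b
    obtain ⟨u, v, hu, hv, h1, h2⟩ := hty a b
    obtain ⟨ta, hta⟩ := hdiag a
    obtain ⟨tb, htb⟩ := hdiag b
    have e1 : vt P c (x j a) = vt P c u := by
      rw [vt_of (hx3 j a a ta hta), vt_of (hu ta hta)]
    have e2 : vt P c (x j b) = vt P c v := by
      rw [vt_of (hx3 j b b tb htb), vt_of (hv tb htb)]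
    rw [e1, e2]
    rcases hqab : q (a, b) with t | t
    · have h3 := h1 t hqab
      have h4 := Col.eq_of_inl hs.col h3
      subst h4
      exact ⟨vt_of h3, vt_of h3⟩
    · have h3 := h2 t hqab
      exact ⟨(Col.ls hs.col h3).symm, (Col.rs hs.col h3).symm⟩
  refine ⟨k, x, j₀, hx1, hx2, hkk, hvt, fun j a b => ?_⟩
  rcases hqab : q (a, b) with t | t
  · have hkab : k a = k b := (hk a b).1 ⟨t, hqab⟩
    rw [hx3 j a b t hqab]
    show _ = (Sum.inl t, False)
    rw [(hx2 j a b).2 hkab, eq_false (lt_irrefl (x j b))]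
  · have hkab : k a ≠ k b := by
      intro h
      obtain ⟨t', ht'⟩ := (hk a b).2 h
      rw [ht'] at hqab
      exact absurd hqab Sum.inl_ne_inr
    have h5 := hj₀ a b hkab j
    rw [← hsg a b t hqab] at h5
    rw [hx4 j a b t hqab]
    show _ = (Sum.inr (if t.2 = decide ((j - j₀ a b).val < (p + 1) / 2) then t.1.1 else t.1.2),
      t.2 = decide ((j - j₀ a b).val < (p + 1) / 2))
    rw [propext ((hx5 j a b).trans h5)]
    congr 2
    by_cases h6 : rk j (lab a) < rk j (lab b)
    · rw [if_pos h6, if_pos (h5.1 h6)]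
    · rw [if_neg h6, if_neg fun h => h6 (h5.2 h)]

/-- the polymorphism of the template -/
noncomputable def fun_of {I : Type} {p : ℕ} (P : Pal S X) (τ : (I → S) → S)
    (κ : (I → S) → (I → S) → Set I → Prop) (Φ : (I → (S ⊕ X) × Prop) → X)
    (Ω : (I → (S ⊕ X) × Prop) → Prop) (N : ((I → ZMod p) → X) → X) (z : I → Ec S X) : Ec S X :=
  if κ (zL P z) (zR P z) (zA P z) then Sum.inl (τ (zL P z))
  else Sum.inr ((N (fun v => Φ fun i => ent (z i) (v i)),
    P.rv (N (fun v => P.rv (Φ fun i => ent (z i) (v i))))),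
    maj fun v : I → ZMod p => Ω fun i => ent (z i) (v i))

theorem pf_TOF (hA : T_ALW) (hO : T_ORD) (hV : T_AVG) : Pool.Agent.H57.SO.T_TOF := by
  intro σ V S X _ P 𝔸 M c hs hD I _ τ κ Φ Ω hG
  obtain ⟨N₀, hN₀⟩ := hD
  -- the prime number
  choose P₀ hP₀ using hA
  obtain ⟨p, hp1, hpp⟩ := Nat.exists_infinite_primes
    (max (N₀ + 1) (max 3 (Finset.univ.sup fun s : Option (Fin σ.m) => P₀ (arP σ M s))))
  have hp2 : N₀ + 1 ≤ p := le_trans (le_max_left _ _) hp1
  have hp3 : 3 ≤ p := le_trans (le_trans (le_max_left _ _) (le_max_right _ _)) hp1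
  have hp4 : ∀ s : Option (Fin σ.m), P₀ (arP σ M s) ≤ p := fun s =>
    le_trans (Finset.le_sup (f := fun s : Option (Fin σ.m) => P₀ (arP σ M s))
      (Finset.mem_univ s)) (le_trans (le_trans (le_max_right _ _) (le_max_right _ _)) hp1)
  have hodd : Odd p := hpp.odd_of_ne_two (by omega)
  have : NeZero p := ⟨hpp.ne_zero⟩
  obtain ⟨f, hf⟩ := hN₀ p hpp (by omega)
  obtain ⟨N, hN1, hN2⟩ := hV σ V S X P 𝔸 M c hs p f hpp.pos hf I
  refine ⟨fun_of (p := p) P τ κ Φ Ω N, ?_, ?_, ?_⟩
  · refine (Pool.Agent.H68.GC.poly_strOn _ _ _).2 ?_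
    intro s q hq
    choose k x j₀ hx1 hx2 hx3 hx4 hx5 using fun i => fam_ord hO hs (p := p) s
      (fun o ho => hP₀ _ p (hp4 s) hodd o ho) (q i) (hq i)
    -- the maps for each choice of the orders
    choose ψ hψ1 hψ2 hψ3 using fun v : I → ZMod p => hG (Fin (arP σ M s)) fun i => x i (v i)
    have hker : ∀ v a b, ψ v a = ψ v b ↔ κ (zL P fun i => q i (a, b)) (zR P fun i => q i (a, b))
        (zA P fun i => q i (a, b)) := by
      intro v a b
      rw [(hψ3 v a b).1]
      have e1 : (fun i => vt P c (x i (v i) a)) = zL P fun i => q i (a, b) :=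
        funext fun i => (hx4 i (v i) a b).1
      have e2 : (fun i => vt P c (x i (v i) b)) = zR P fun i => q i (a, b) :=
        funext fun i => (hx4 i (v i) a b).2
      have e3 : {i | x i (v i) a = x i (v i) b} = zA P fun i => q i (a, b) := by
        ext i
        show x i (v i) a = x i (v i) b ↔ (shp P (q i (a, b))).2 = true
        rw [hx2, hx3]
      rw [e1, e2, e3]
    have hpair : ∀ v a b, ψ v a ≠ ψ v b →
        c (ψ v a) (ψ v b) = Sum.inr (Φ fun i => ent (q i (a, b)) (v i - j₀ i a b)) ∧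
        (ψ v a < ψ v b ↔ Ω fun i => ent (q i (a, b)) (v i - j₀ i a b)) := by
      intro v a b hab
      have h1 := (hψ3 v a b).2 hab
      have e : (fun i => (c (x i (v i) a) (x i (v i) b), x i (v i) a < x i (v i) b)) =
          fun i => ent (q i (a, b)) (v i - j₀ i a b) := funext fun i => hx5 i (v i) a b
      rw [e] at h1
      exact h1
    have hty : ∀ v a b, c (ψ v a) (ψ v a) = Sum.inl (τ (zL P fun i => q i (a, b))) := by
      intro v a b
      rw [← Col.vt_iff hs.col (P := P), hψ2 v a]
      congr 1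
      exact funext fun i => (hx4 i (v i) a b).1
    have hker0 : ∀ v a b, ψ v a = ψ v b ↔ ψ 0 a = ψ 0 b := fun v a b => by
      rw [hker, hker]
    have hcardodd : Odd (Nat.card (I → ZMod p)) := odd_pow hodd
    -- the labels
    have hlab : ∃ lab : Fin (arP σ M s) → Fin (arP σ M s), (∀ a, ψ 0 (lab a) = ψ 0 a) ∧
        ∀ a b, ψ 0 a = ψ 0 b → lab a = lab b := by
      refine ⟨fun a => Classical.choose (⟨a, rfl⟩ : ∃ b, ψ 0 b = ψ 0 a), fun a =>
        Classical.choose_spec (⟨a, rfl⟩ : ∃ b, ψ 0 b = ψ 0 a), fun a b hab => ?_⟩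
      simp only [hab]
    obtain ⟨lab, hlab1, hlab2⟩ := hlab
    have hlabv : ∀ v a, ψ v (lab a) = ψ v a := fun v a => (hker0 v _ _).2 (hlab1 a)
    have hlabk : ∀ a b, (lab a).val = (lab b).val ↔ ψ 0 a = ψ 0 b := fun a b =>
      ⟨fun h => by rw [← hlab1 a, ← hlab1 b, Fin.ext h], fun h => by rw [hlab2 a b h]⟩
    let K := arP σ M s
    let T : ℕ → ℕ → Bool := fun m n =>
      if h : (m < K ∧ n < K) then
        (if ψ 0 ⟨m, h.1⟩ ≠ ψ 0 ⟨n, h.2⟩ then
          maj fun v : I → ZMod p => ψ v ⟨m, h.1⟩ < ψ v ⟨n, h.2⟩ else decide (m < n))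
      else decide (m < n)
    have hTval : ∀ a b : Fin (arP σ M s), ψ 0 a ≠ ψ 0 b →
        T a.val b.val = maj fun v : I → ZMod p => ψ v a < ψ v b := by
      intro a b hab
      show (if h : (a.val < K ∧ b.val < K) then _ else _) = _
      rw [dif_pos ⟨a.2, b.2⟩, if_pos hab]
    have hinl : ∀ a b, (∃ t, fun_of (p := p) P τ κ Φ Ω N (fun i => q i (a, b)) = Sum.inl t) ↔
        ψ 0 a = ψ 0 b := by
      intro a b
      rw [hker 0 a b]
      unfold fun_of
      split_ifs with h
      · exact ⟨fun _ => h, fun _ => ⟨_, rfl⟩⟩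
      · exact ⟨fun ⟨t, ht⟩ => absurd ht (by simp), fun h' => absurd h' h⟩
    have hshift : ∀ (a b) (g : (I → (S ⊕ X) × Prop) → X),
        N (fun v => g fun i => ent (q i (a, b)) (v i - j₀ i a b)) =
          N (fun v => g fun i => ent (q i (a, b)) (v i)) := by
      intro a b g
      rw [← hN1 (fun i => - j₀ i a b) (fun v => g fun i => ent (q i (a, b)) (v i))]
      congr 1
      funext v
      congr 1
      funext i
      rw [Pi.add_apply, sub_eq_add_neg]
    refine ⟨fun a => (lab a).val, T, ?_, fun a b => ?_, fun a b t ht => ?_, fun rk hrk => ?_⟩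
    · intro m n hmn
      by_cases h : m < K ∧ n < K
      · by_cases h2 : ψ 0 ⟨m, h.1⟩ = ψ 0 ⟨n, h.2⟩
        · show (if h : (n < K ∧ m < K) then _ else _) = !(if h : (m < K ∧ n < K) then _ else _)
          rw [dif_pos h, dif_pos h.symm, if_neg (fun h' => h' h2.symm), if_neg (fun h' => h' h2),
            ← decide_not, decide_eq_decide]
          omega
        · show (if h : (n < K ∧ m < K) then _ else _) = !(if h : (m < K ∧ n < K) then _ else _)
          rw [dif_pos h, dif_pos h.symm, if_pos h2, if_pos (Ne.symm h2)]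
          refine maj_not hcardodd _ _ fun v => ?_
          have h3 : ψ v ⟨m, h.1⟩ ≠ ψ v ⟨n, h.2⟩ := fun h' => h2 ((hker0 v _ _).1 h')
          exact ⟨fun h4 => not_lt.2 h4.le, fun h4 => lt_of_le_of_ne (not_lt.1 h4) h3.symm⟩
      · show (if h : (n < K ∧ m < K) then _ else _) = !(if h : (m < K ∧ n < K) then _ else _)
        rw [dif_neg h, dif_neg (fun h' => h h'.symm), ← decide_not, decide_eq_decide]
        omega
    · rw [hinl, hlabk]
    · change fun_of (p := p) P τ κ Φ Ω N (fun i => q i (a, b)) = Sum.inr t at ht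
      have hne : ψ 0 a ≠ ψ 0 b := by
        intro h
        obtain ⟨t', ht'⟩ := (hinl a b).2 h
        rw [ht'] at ht
        exact absurd ht Sum.inl_ne_inr
      rw [hTval (lab a) (lab b) (by rw [hlab1, hlab1]; exact hne)]
      have h1 : t.2 = maj fun v : I → ZMod p => Ω fun i => ent (q i (a, b)) (v i) := by
        unfold fun_of at ht
        rw [if_neg (fun h => hne ((hker 0 a b).2 h))] at ht
        rw [← Sum.inr.inj ht]
      rw [h1]
      refine maj_congr (Equiv.addRight fun i => j₀ i a b) _ _ fun v => ?_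
      have hnev : ψ (v + fun i => j₀ i a b) a ≠ ψ (v + fun i => j₀ i a b) b :=
        fun h => hne ((hker0 _ _ _).1 h)
      have h2 := (hpair (v + fun i => j₀ i a b) a b hnev).2
      show _ ↔ ψ (v + fun i => j₀ i a b) (lab a) < ψ (v + fun i => j₀ i a b) (lab b)
      rw [hlabv, hlabv, h2]
      simp only [Pi.add_apply, add_sub_cancel_right]
    · -- the tuple for the order `rk`
      have hrk' : ∀ a b, rk a = rk b ↔ ψ 0 a = ψ 0 b := fun a b => by rw [hrk, hlabk]
      let Q : Setoid (Fin (arP σ M s)) := Setoid.ker (ψ 0)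
      have hr : ∀ a b, (Quotient.mk Q a = Quotient.mk Q b) ↔ ψ 0 a = ψ 0 b := fun a b =>
        ⟨fun h => Quotient.exact h, fun h => Quotient.sound h⟩
      obtain ⟨y, hy1, hy2, hy3, hy4⟩ := hN2 (Quotient Q)
        (Quotient.lift rk fun a b hab => (hrk' a b).2 hab) (by
          intro u w
          induction u using Quotient.inductionOn with
          | _ a =>
            induction w using Quotient.inductionOn with
            | _ b =>
              intro hab
              exact (hr a b).2 ((hrk' a b).1 hab))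
        (fun v => Quotient.lift (ψ v) fun a b hab => (hker0 v a b).2 hab) (by
          intro v u w
          induction u using Quotient.inductionOn with
          | _ a =>
            induction w using Quotient.inductionOn with
            | _ b =>
              intro hab
              exact (hr a b).2 ((hker0 v a b).1 hab)) (by
          intro v v' w
          induction w using Quotient.inductionOn with
          | _ a =>
            show c (ψ v a) (ψ v a) = c (ψ v' a) (ψ v' a)
            rw [hty v a a, hty v' a a])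
      have hyk : ∀ a b, y (Quotient.mk Q a) = y (Quotient.mk Q b) ↔ ψ 0 a = ψ 0 b := fun a b => by
        rw [hy1.eq_iff, hr]
      have hyt : ∀ a b, c (y (Quotient.mk Q a)) (y (Quotient.mk Q a)) =
          Sum.inl (τ (zL P fun i => q i (a, b))) := fun a b => by
        rw [hy3 0 (Quotient.mk Q a)]
        exact hty 0 a b
      have hlt : ∀ a b, rk a < rk b → c (y (Quotient.mk Q a)) (y (Quotient.mk Q b)) =
          Sum.inr (N fun v => cD P c (ψ v a) (ψ v b)) := by
        intro a b hab
        refine hy4 (Quotient.mk Q a) (Quotient.mk Q b) _ hab fun v => ?_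
        refine cD_of_ne hs.col fun h => ?_
        have h1 := (hrk' a b).2 ((hker0 v a b).1 h)
        omega
      refine ⟨fun a => y (Quotient.mk Q a), ?_, fun a b => ?_, fun a b t ht => ?_,
        fun a b t ht => ?_⟩
      · cases s with
        | none => trivial
        | some l =>
          refine hy2 l (fun a => Quotient.mk Q a) fun v => ?_
          exact hψ1 v l (fun a => a) fun i => hx1 i (v i)
      · show y (Quotient.mk Q a) = y (Quotient.mk Q b) ↔ (lab a).val = (lab b).val
        rw [hyk, hlabk]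
      · have h1 : ψ 0 a = ψ 0 b := (hinl a b).1 ⟨t, ht⟩
        show c (y (Quotient.mk Q a)) (y (Quotient.mk Q b)) = Sum.inl t
        rw [← (hyk a b).2 h1, hyt a b]
        have ht' : fun_of (p := p) P τ κ Φ Ω N (fun i => q i (a, b)) = Sum.inl t := ht
        unfold fun_of at ht'
        rw [if_pos ((hker 0 a b).1 h1)] at ht'
        rw [Sum.inl.inj ht']
      · change fun_of (p := p) P τ κ Φ Ω N (fun i => q i (a, b)) = Sum.inr t at ht
        have hne : ψ 0 a ≠ ψ 0 b := by
          intro h
          obtain ⟨t', ht'⟩ := (hinl a b).2 h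
          rw [ht'] at ht
          exact absurd ht Sum.inl_ne_inr
        have hnev : ∀ v, ψ v a ≠ ψ v b := fun v h => hne ((hker0 v a b).1 h)
        have hval : ∀ v, cD P c (ψ v a) (ψ v b) =
            Φ fun i => ent (q i (a, b)) (v i - j₀ i a b) := fun v =>
          cD_of_inr (hpair v a b (hnev v)).1
        have hval' : ∀ v, cD P c (ψ v b) (ψ v a) =
            P.rv (Φ fun i => ent (q i (a, b)) (v i - j₀ i a b)) := fun v =>
          cD_of_inr (hs.col.swap _ _ _ (hpair v a b (hnev v)).1)
        have ht' : fun_of (p := p) P τ κ Φ Ω N (fun i => q i (a, b)) = Sum.inr t := ht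
        unfold fun_of at ht'
        rw [if_neg (fun h => hne ((hker 0 a b).2 h))] at ht'
        have ht1 := congrArg (fun t : (X × X) × Bool => t.1.1) (Sum.inr.inj ht')
        have ht2 := congrArg (fun t : (X × X) × Bool => t.1.2) (Sum.inr.inj ht')
        simp only at ht1 ht2
        show c (y (Quotient.mk Q a)) (y (Quotient.mk Q b)) =
          Sum.inr (if rk a < rk b then t.1.1 else t.1.2)
        by_cases hab : rk a < rk b
        · rw [if_pos hab, hlt a b hab, ← ht1, ← hshift a b Φ]
          simp only [hval]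
        · have hba : rk b < rk a := by
            have : rk a ≠ rk b := fun h => hne ((hrk' a b).1 h)
            omega
          rw [if_neg hab, hs.col.swap _ _ _ (hlt b a hba), ← ht2,
            ← hshift a b (fun e => P.rv (Φ e))]
          simp only [hval']
  · intro z
    unfold fun_of
    split_ifs with h
    · exact ⟨fun _ => h, fun _ => ⟨_, rfl⟩⟩
    · exact ⟨fun ⟨t, ht⟩ => absurd ht (by simp), fun h' => absurd h' h⟩
  · intro z s hz
    unfold fun_of at hz
    split_ifs at hz with h
    · exact (Sum.inl.inj hz).symm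

end

end Pool.Agent.H44.SO.TOF
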